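import Mathlib

namespace Pool.Agent.H.MP_32323c_lc

/-- Terms over actions `A` and variables `V`: empty process, actions, variables, alternative
composition, sequential composition, binary Kleene star. -/
inductive Term (A V : Type) : Type
  | eps : Term A V
  | act : A → Term A V
  | var : V → Term A V
  | plus : Term A V → Term A V → Term A V
  | seq : Term A V → Term A V → Term A V
  | star : Term A V → Term A V → Term A V

/-- Substitution of terms for variables. -/
def Term.subst {A V W : Type} (σ : V → Term A W) : Term A V → Term A W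
  | .eps => .eps
  | .act a => .act a
  | .var x => σ x
  | .plus p q => .plus (p.subst σ) (q.subst σ)
  | .seq p q => .seq (p.subst σ) (q.subst σ)
  | .star p q => .star (p.subst σ) (q.subst σ)

/-- Closed terms: no variables. -/
abbrev Closed (A : Type) : Type := Term A Empty

/-- Open terms: countably many variables. -/
abbrev Open (A : Type) : Type := Term A ℕ

/-- A closed term read as an open term. -/
def Closed.toOpen {A : Type} (p : Closed A) : Open A := Term.subst Empty.elim p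

/-- The termination predicate on closed terms. -/
inductive Done {A : Type} : Closed A → Prop
  | eps : Done .eps
  | plusL {p q : Closed A} : Done p → Done (.plus p q)
  | plusR {p q : Closed A} : Done q → Done (.plus p q)
  | seq {p q : Closed A} : Done p → Done q → Done (.seq p q)
  | star {p q : Closed A} : Done q → Done (.star p q)

/-- The transitions between closed terms. -/
inductive Step {A : Type} : Closed A → A → Closed A → Prop
  | act (a : A) : Step (.act a) a .eps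
  | plusL {p q p' : Closed A} {a : A} : Step p a p' → Step (.plus p q) a p'
  | plusR {p q q' : Closed A} {a : A} : Step q a q' → Step (.plus p q) a q'
  | seqL {p q p' : Closed A} {a : A} : Step p a p' → Step (.seq p q) a (.seq p' q)
  | seqR {p q q' : Closed A} {a : A} : Done p → Step q a q' → Step (.seq p q) a q'
  | starL {p q p' : Closed A} {a : A} :
      Step p a p' → Step (.star p q) a (.seq p' (.star p q))
  | starR {p q q' : Closed A} {a : A} : Step q a q' → Step (.star p q) a q'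

/-- Bisimilarity: the union of all symmetric relations with the two transfer properties. -/
def Bisimilar {A : Type} (p q : Closed A) : Prop :=
  ∃ R : Closed A → Closed A → Prop, (∀ x y, R x y → R y x) ∧
    (∀ x y, R x y → (∀ a x', Step x a x' → ∃ y', Step y a y' ∧ R x' y') ∧ (Done x → Done y)) ∧
    R p q

/-- Derivability in equational logic from a set `E` of equations between open terms. -/
inductive Derivable {A : Type} (E : Set (Open A × Open A)) : Open A → Open A → Prop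
  | ax {p q : Open A} : (p, q) ∈ E → Derivable E p q
  | refl (p : Open A) : Derivable E p p
  | symm {p q : Open A} : Derivable E p q → Derivable E q p
  | trans {p q r : Open A} : Derivable E p q → Derivable E q r → Derivable E p r
  | subst {p q : Open A} (σ : ℕ → Open A) :
      Derivable E p q → Derivable E (p.subst σ) (q.subst σ)
  | plus {p p' q q' : Open A} :
      Derivable E p p' → Derivable E q q' → Derivable E (.plus p q) (.plus p' q')
  | seq {p p' q q' : Open A} :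
      Derivable E p p' → Derivable E q q' → Derivable E (.seq p q) (.seq p' q')
  | star {p p' q q' : Open A} :
      Derivable E p p' → Derivable E q q' → Derivable E (.star p q) (.star p' q')

/-- Every closed instance of every equation of `E` is valid modulo bisimilarity. -/
def Sound {A : Type} (E : Set (Open A × Open A)) : Prop :=
  ∀ e ∈ E, ∀ σ : ℕ → Closed A, Bisimilar (e.1.subst σ) (e.2.subst σ)

/-- Every valid equation between closed terms is derivable from `E`. -/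
def GroundComplete {A : Type} (E : Set (Open A × Open A)) : Prop :=
  ∀ p q : Closed A, Bisimilar p q → Derivable E p.toOpen q.toOpen

/- Semantics of open terms: variable `x` terminates when `D x` and has one step when `H x`. -/

variable {A V : Type}

open Term

def nul (D : V → Prop) : Term A V → Prop
  | .eps => True
  | .act _ => False
  | .var x => D x
  | .plus p q => nul D p ∨ nul D q
  | .seq p q => nul D p ∧ nul D q
  | .star _ q => nul D q

def stp (D H : V → Prop) : Term A V → A ⊕ V → Term A V → Prop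
  | .eps, _, _ => False
  | .act a, ξ, t => ξ = .inl a ∧ t = .eps
  | .var x, ξ, t => H x ∧ ξ = .inr x ∧ t = .eps
  | .plus p q, ξ, t => stp D H p ξ t ∨ stp D H q ξ t
  | .seq p q, ξ, t => (∃ p', stp D H p ξ p' ∧ t = .seq p' q) ∨ (nul D p ∧ stp D H q ξ t)
  | .star p q, ξ, t => (∃ p', stp D H p ξ p' ∧ t = .seq p' (.star p q)) ∨ stp D H q ξ t

def no : Empty → Prop := fun _ => False

abbrev nul0 (p : Closed A) : Prop := nul no p
abbrev stp0 (p : Closed A) (ξ : A ⊕ Empty) (q : Closed A) : Prop := stp no no p ξ q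

theorem done_iff (p : Closed A) : Done p ↔ nul0 p := by
  constructor
  · intro h
    induction h with
    | eps => trivial
    | plusL _ ih => exact Or.inl ih
    | plusR _ ih => exact Or.inr ih
    | seq _ _ ih1 ih2 => exact ⟨ih1, ih2⟩
    | star _ ih => exact ih
  · induction p with
    | eps => exact fun _ => Done.eps
    | act a => exact fun h => h.elim
    | var x => exact x.elim
    | plus p q ihp ihq => exact fun h => h.elim (fun h => .plusL (ihp h)) (fun h => .plusR (ihq h))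
    | seq p q ihp ihq => exact fun h => .seq (ihp h.1) (ihq h.2)
    | star p q _ ihq => exact fun h => .star (ihq h)

theorem step_iff (p : Closed A) (a : A) (q : Closed A) : Step p a q ↔ stp0 p (.inl a) q := by
  constructor
  · intro h
    induction h with
    | act a => exact ⟨rfl, rfl⟩
    | plusL _ ih => exact Or.inl ih
    | plusR _ ih => exact Or.inr ih
    | seqL _ ih => exact Or.inl ⟨_, ih, rfl⟩
    | seqR h _ ih => exact Or.inr ⟨(done_iff _).1 h, ih⟩
    | starL _ ih => exact Or.inl ⟨_, ih, rfl⟩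
    | starR _ ih => exact Or.inr ih
  · induction p generalizing q with
    | eps => exact fun h => h.elim
    | act b =>
      rintro ⟨h1, rfl⟩
      cases h1
      exact Step.act _
    | var x => exact x.elim
    | plus p r ihp ihr =>
      exact fun h => h.elim (fun h => .plusL (ihp _ h)) (fun h => .plusR (ihr _ h))
    | seq p r ihp ihr =>
      rintro (⟨p', h, rfl⟩ | ⟨h1, h2⟩)
      · exact .seqL (ihp _ h)
      · exact .seqR ((done_iff _).2 h1) (ihr _ h2)
    | star p r ihp ihr =>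
      rintro (⟨p', h, rfl⟩ | h)
      · exact .starL (ihp _ h)
      · exact .starR (ihr _ h)

def IsBis (D H : V → Prop) (R : Term A V → Term A V → Prop) : Prop :=
  ∀ p q, R p q → (nul D p ↔ nul D q) ∧
    (∀ ξ p', stp D H p ξ p' → ∃ q', stp D H q ξ q' ∧ R p' q') ∧
    (∀ ξ q', stp D H q ξ q' → ∃ p', stp D H p ξ p' ∧ R p' q')

def Bis (D H : V → Prop) (s t : Term A V) : Prop := ∃ R, IsBis D H R ∧ R s t

variable {D H : V → Prop}

theorem Bis.nul_iff {s t : Term A V} (h : Bis D H s t) : nul D s ↔ nul D t := by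
  obtain ⟨R, hR, h⟩ := h
  exact (hR _ _ h).1

theorem Bis.fwd {s t : Term A V} (h : Bis D H s t) {ξ s'} (hs : stp D H s ξ s') :
    ∃ t', stp D H t ξ t' ∧ Bis D H s' t' := by
  obtain ⟨R, hR, h⟩ := h
  obtain ⟨t', h1, h2⟩ := (hR _ _ h).2.1 _ _ hs
  exact ⟨t', h1, R, hR, h2⟩

theorem Bis.bwd {s t : Term A V} (h : Bis D H s t) {ξ t'} (ht : stp D H t ξ t') :
    ∃ s', stp D H s ξ s' ∧ Bis D H s' t' := by
  obtain ⟨R, hR, h⟩ := h
  obtain ⟨s', h1, h2⟩ := (hR _ _ h).2.2 _ _ ht
  exact ⟨s', h1, R, hR, h2⟩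

theorem Bis.refl (s : Term A V) : Bis D H s s :=
  ⟨Eq, fun p q h => by
    subst h
    exact ⟨Iff.rfl, fun ξ p' h => ⟨p', h, rfl⟩, fun ξ p' h => ⟨p', h, rfl⟩⟩, rfl⟩

theorem Bis.symm {s t : Term A V} (h : Bis D H s t) : Bis D H t s :=
  ⟨fun p q => Bis D H q p, fun _ _ h => ⟨h.nul_iff.symm, fun _ _ h' => h.bwd h',
    fun _ _ h' => h.fwd h'⟩, h⟩

theorem Bis.trans {s t u : Term A V} (h : Bis D H s t) (h' : Bis D H t u) : Bis D H s u := by
  refine ⟨fun p q => ∃ r, Bis D H p r ∧ Bis D H r q, ?_, t, h, h'⟩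
  rintro p q ⟨r, h1, h2⟩
  refine ⟨h1.nul_iff.trans h2.nul_iff, fun ξ p' hp => ?_, fun ξ q' hq => ?_⟩
  · obtain ⟨r', h3, h4⟩ := h1.fwd hp
    obtain ⟨q', h5, h6⟩ := h2.fwd h3
    exact ⟨q', h5, r', h4, h6⟩
  · obtain ⟨r', h3, h4⟩ := h2.bwd hq
    obtain ⟨p', h5, h6⟩ := h1.bwd h3
    exact ⟨p', h5, r', h6, h4⟩

theorem Bis.seq {p p' q q' : Term A V} (h : Bis D H p p') (h' : Bis D H q q') :
    Bis D H (.seq p q) (.seq p' q') := by
  refine ⟨fun s t => Bis D H s t ∨ ∃ u u', Bis D H u u' ∧ s = .seq u q ∧ t = .seq u' q', ?_,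
    Or.inr ⟨p, p', h, rfl, rfl⟩⟩
  rintro s t (h1 | ⟨u, u', h1, rfl, rfl⟩)
  · refine ⟨h1.nul_iff, fun ξ s' hs => ?_, fun ξ t' ht => ?_⟩
    · obtain ⟨t', h2, h3⟩ := h1.fwd hs
      exact ⟨t', h2, Or.inl h3⟩
    · obtain ⟨t', h2, h3⟩ := h1.bwd ht
      exact ⟨t', h2, Or.inl h3⟩
  · refine ⟨and_congr h1.nul_iff h'.nul_iff, ?_, ?_⟩
    · rintro ξ s' (⟨w, hw, rfl⟩ | ⟨hn, hq⟩)
      · obtain ⟨w', h2, h3⟩ := h1.fwd hw
        exact ⟨_, Or.inl ⟨w', h2, rfl⟩, Or.inr ⟨w, w', h3, rfl, rfl⟩⟩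
      · obtain ⟨w', h2, h3⟩ := h'.fwd hq
        exact ⟨_, Or.inr ⟨h1.nul_iff.1 hn, h2⟩, Or.inl h3⟩
    · rintro ξ s' (⟨w, hw, rfl⟩ | ⟨hn, hq⟩)
      · obtain ⟨w', h2, h3⟩ := h1.bwd hw
        exact ⟨_, Or.inl ⟨w', h2, rfl⟩, Or.inr ⟨w', w, h3, rfl, rfl⟩⟩
      · obtain ⟨w', h2, h3⟩ := h'.bwd hq
        exact ⟨_, Or.inr ⟨h1.nul_iff.2 hn, h2⟩, Or.inl h3⟩

theorem Bis.of_eq {s t : Term A V} (hn : nul D s ↔ nul D t)
    (hs : ∀ ξ u, stp D H s ξ u ↔ stp D H t ξ u) : Bis D H s t := by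
  refine ⟨fun p q => p = q ∨ (p = s ∧ q = t), ?_, Or.inr ⟨rfl, rfl⟩⟩
  rintro p q (rfl | ⟨rfl, rfl⟩)
  · exact ⟨Iff.rfl, fun ξ p' h => ⟨p', h, Or.inl rfl⟩, fun ξ p' h => ⟨p', h, Or.inl rfl⟩⟩
  · exact ⟨hn, fun ξ p' h => ⟨p', (hs _ _).1 h, Or.inl rfl⟩,
      fun ξ p' h => ⟨p', (hs _ _).2 h, Or.inl rfl⟩⟩

theorem bis_eps_seq (q : Term A V) : Bis D H (.seq .eps q) q :=
  Bis.of_eq (by simp [nul]) (by simp [stp, nul])

theorem bis_seq_eps (p : Term A V) : Bis D H (.seq p .eps) p := by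
  refine ⟨fun s t => s = .seq t .eps, ?_, rfl⟩
  rintro s t rfl
  refine ⟨by simp [nul], ?_, fun ξ t' h => ⟨_, Or.inl ⟨t', h, rfl⟩, rfl⟩⟩
  rintro ξ s' (⟨w, hw, rfl⟩ | ⟨_, hq⟩)
  · exact ⟨w, hw, rfl⟩
  · exact hq.elim

theorem bis_assoc (p q r : Term A V) : Bis D H (.seq (.seq p q) r) (.seq p (.seq q r)) := by
  refine ⟨fun s t => s = t ∨ ∃ u, s = .seq (.seq u q) r ∧ t = .seq u (.seq q r), ?_,
    Or.inr ⟨p, rfl, rfl⟩⟩
  rintro s t (rfl | ⟨u, rfl, rfl⟩)
  · exact ⟨Iff.rfl, fun ξ p' h => ⟨p', h, Or.inl rfl⟩, fun ξ p' h => ⟨p', h, Or.inl rfl⟩⟩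
  · refine ⟨by simp [nul, and_assoc], ?_, ?_⟩
    · rintro ξ s' (⟨w, (⟨w', hw, rfl⟩ | ⟨hn, hw⟩), rfl⟩ | ⟨⟨hn1, hn2⟩, hq⟩)
      · exact ⟨_, Or.inl ⟨w', hw, rfl⟩, Or.inr ⟨w', rfl, rfl⟩⟩
      · exact ⟨_, Or.inr ⟨hn, Or.inl ⟨w, hw, rfl⟩⟩, Or.inl rfl⟩
      · exact ⟨_, Or.inr ⟨hn1, Or.inr ⟨hn2, hq⟩⟩, Or.inl rfl⟩
    · rintro ξ s' (⟨w, hw, rfl⟩ | ⟨hn, (⟨w, hw, rfl⟩ | ⟨hn2, hq⟩)⟩)
      · exact ⟨_, Or.inl ⟨_, Or.inl ⟨w, hw, rfl⟩, rfl⟩, Or.inr ⟨w, rfl, rfl⟩⟩
      · exact ⟨_, Or.inl ⟨w, Or.inr ⟨hn, hw⟩, rfl⟩, Or.inl rfl⟩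
      · exact ⟨_, Or.inr ⟨⟨hn, hn2⟩, hq⟩, Or.inl rfl⟩

theorem bisimilar_iff (p q : Closed A) : Bisimilar p q ↔ Bis no no p q := by
  constructor
  · rintro ⟨R, hs, hR, h⟩
    refine ⟨R, fun x y hxy => ⟨?_, ?_, ?_⟩, h⟩
    · rw [← nul0, ← nul0, ← done_iff, ← done_iff]
      exact ⟨(hR _ _ hxy).2, (hR _ _ (hs _ _ hxy)).2⟩
    · rintro (a | e) x' hx
      · obtain ⟨y', h1, h2⟩ := (hR _ _ hxy).1 a x' ((step_iff _ _ _).2 hx)
        exact ⟨y', (step_iff _ _ _).1 h1, h2⟩
      · exact e.elim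
    · rintro (a | e) y' hy
      · obtain ⟨x', h1, h2⟩ := (hR _ _ (hs _ _ hxy)).1 a y' ((step_iff _ _ _).2 hy)
        exact ⟨x', (step_iff _ _ _).1 h1, hs _ _ h2⟩
      · exact e.elim
  · intro h
    refine ⟨Bis no no, fun _ _ h => h.symm, fun x y hxy => ⟨fun a x' hx => ?_, fun hx => ?_⟩, h⟩
    · obtain ⟨y', h1, h2⟩ := hxy.fwd ((step_iff _ _ _).1 hx)
      exact ⟨y', (step_iff _ _ _).2 h1, h2⟩
    · exact (done_iff _).2 (hxy.nul_iff.1 ((done_iff _).1 hx))

/-- Targets of transitions reachable from a term. -/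
inductive Edge (D H : V → Prop) : Term A V → A ⊕ V → Term A V → Prop
  | step {u ξ u'} : stp D H u ξ u' → Edge D H u ξ u'
  | tail {u ξ' u' ξ u''} : stp D H u ξ' u' → Edge D H u' ξ u'' → Edge D H u ξ u''

theorem Edge.snoc {u ξ u' ξ' u''} (h : Edge D H (u : Term A V) ξ u') (h' : stp D H u' ξ' u'') :
    Edge D H u ξ' u'' := by
  induction h with
  | step h => exact .tail h (.step h')
  | tail h _ ih => exact .tail h (ih h')

theorem Edge.of_stp {u v : Term A V} (huv : ∀ ξ t, stp D H u ξ t → stp D H v ξ t) {ξ t}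
    (h : Edge D H u ξ t) : Edge D H v ξ t := by
  cases h with
  | step h => exact .step (huv _ _ h)
  | tail h h' => exact .tail (huv _ _ h) h'

theorem Edge.seqL {u : Term A V} {ξ t} (v : Term A V) (h : Edge D H u ξ t) :
    Edge D H (.seq u v) ξ (.seq t v) := by
  induction h with
  | step h => exact .step (Or.inl ⟨_, h, rfl⟩)
  | tail h _ ih => exact .tail (Or.inl ⟨_, h, rfl⟩) ih

theorem Edge.starL {u : Term A V} {ξ t} (v : Term A V) (h : Edge D H u ξ t) :
    Edge D H (.star u v) ξ (.seq t (.star u v)) := by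
  cases h with
  | step h => exact .step (Or.inl ⟨_, h, rfl⟩)
  | tail h h' => exact .tail (Or.inl ⟨_, h, rfl⟩) (h'.seqL _)

def nrm : Term A V → ℕ
  | .eps => 0
  | .act _ => 1
  | .var _ => 1
  | .plus p q => nrm p + nrm q
  | .seq p q => nrm p + nrm q
  | .star _ q => nrm q

theorem exists_stp_lt (hDH : ∀ x, ¬ D x → H x) (s : Term A V) (hs : ¬ nul D s) :
    ∃ ξ s', stp D H s ξ s' ∧ nrm s' < nrm s := by
  induction s with
  | eps => exact (hs trivial).elim
  | act a => exact ⟨.inl a, .eps, ⟨rfl, rfl⟩, by simp [nrm]⟩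
  | var x => exact ⟨.inr x, .eps, ⟨hDH x hs, rfl, rfl⟩, by simp [nrm]⟩
  | plus p q ihp _ =>
    obtain ⟨ξ, s', h1, h2⟩ := ihp (fun h => hs (Or.inl h))
    exact ⟨ξ, s', Or.inl h1, by simp only [nrm]; omega⟩
  | seq p q ihp ihq =>
    by_cases hp : nul D p
    · obtain ⟨ξ, s', h1, h2⟩ := ihq (fun h => hs ⟨hp, h⟩)
      exact ⟨ξ, s', Or.inr ⟨hp, h1⟩, by simp only [nrm]; omega⟩
    · obtain ⟨ξ, s', h1, h2⟩ := ihp hp
      exact ⟨ξ, _, Or.inl ⟨s', h1, rfl⟩, by simp only [nrm]; omega⟩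
  | star p q _ ihq =>
    obtain ⟨ξ, s', h1, h2⟩ := ihq hs
    exact ⟨ξ, s', Or.inr h1, by simpa only [nrm] using h2⟩

theorem Edge.seqR (hDH : ∀ x, ¬ D x → H x) {v : Term A V} {ξ t} (h : Edge D H v ξ t)
    (u : Term A V) : Edge D H (.seq u v) ξ t := by
  induction hm : nrm u using Nat.strong_induction_on generalizing u with
  | _ m ih =>
    by_cases hu : nul D u
    · exact Edge.of_stp (v := .seq u v) (fun ξ t h => Or.inr ⟨hu, h⟩) h
    · obtain ⟨ξ', u', h1, h2⟩ := exists_stp_lt hDH u hu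
      exact .tail (Or.inl ⟨u', h1, rfl⟩) (ih _ (hm ▸ h2) u' rfl)

theorem Edge.bis {u v : Term A V} (huv : Bis D H u v) {ξ t} (h : Edge D H u ξ t) :
    ∃ t', Edge D H v ξ t' ∧ Bis D H t t' := by
  induction h generalizing v with
  | step h =>
    obtain ⟨t', h1, h2⟩ := huv.fwd h
    exact ⟨t', .step h1, h2⟩
  | tail h _ ih =>
    obtain ⟨t', h1, h2⟩ := huv.fwd h
    obtain ⟨t'', h3, h4⟩ := ih h2
    exact ⟨t'', .tail h1 h3, h4⟩

def ders : Term A V → List (Term A V)
  | .eps => []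
  | .act _ => [.eps]
  | .var _ => [.eps]
  | .plus p q => ders p ++ ders q
  | .seq p q => (ders p).map (fun u => .seq u q) ++ ders q
  | .star p q => (ders p).map (fun u => .seq u (.star p q)) ++ ders q

theorem mem_ders_of_stp {s : Term A V} {ξ t} (h : stp D H s ξ t) :
    t ∈ ders s ∧ ∀ w ∈ ders t, w ∈ ders s := by
  induction s generalizing t with
  | eps => exact h.elim
  | act a =>
    obtain ⟨-, rfl⟩ := h
    simp [ders]
  | var x =>
    obtain ⟨-, -, rfl⟩ := h
    simp [ders]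
  | plus p q ihp ihq =>
    rcases h with h | h
    · exact ⟨by simp [ders, (ihp h).1], fun w hw => by simp [ders, (ihp h).2 w hw]⟩
    · exact ⟨by simp [ders, (ihq h).1], fun w hw => by simp [ders, (ihq h).2 w hw]⟩
  | seq p q ihp ihq =>
    rcases h with ⟨p', h, rfl⟩ | ⟨-, h⟩
    · refine ⟨by simp [ders, (ihp h).1], fun w hw => ?_⟩
      simp only [ders, List.mem_append, List.mem_map] at hw ⊢
      rcases hw with ⟨w', h1, rfl⟩ | hw
      · exact Or.inl ⟨w', (ihp h).2 _ h1, rfl⟩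
      · exact Or.inr hw
    · exact ⟨by simp [ders, (ihq h).1], fun w hw => by simp [ders, (ihq h).2 w hw]⟩
  | star p q ihp ihq =>
    rcases h with ⟨p', h, rfl⟩ | h
    · refine ⟨by simp [ders, (ihp h).1], fun w hw => ?_⟩
      simp only [ders, List.mem_append, List.mem_map] at hw ⊢
      rcases hw with ⟨w', h1, rfl⟩ | hw
      · exact Or.inl ⟨w', (ihp h).2 _ h1, rfl⟩
      · exact hw
    · exact ⟨by simp [ders, (ihq h).1], fun w hw => by simp [ders, (ihq h).2 w hw]⟩

theorem Edge.mem_ders {s : Term A V} {ξ t} (h : Edge D H s ξ t) : t ∈ ders s := by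
  induction h with
  | step h => exact (mem_ders_of_stp h).1
  | tail h _ ih => exact (mem_ders_of_stp h).2 _ ih

theorem subst_subst {W X : Type} (σ : V → Term A W) (τ : W → Term A X) (p : Term A V) :
    (p.subst σ).subst τ = p.subst (fun x => (σ x).subst τ) := by
  induction p with
  | eps => rfl
  | act a => rfl
  | var x => rfl
  | plus p q ihp ihq => simp [Term.subst, ihp, ihq]
  | seq p q ihp ihq => simp [Term.subst, ihp, ihq]
  | star p q ihp ihq => simp [Term.subst, ihp, ihq]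

theorem subst_closed (σ : Empty → Closed A) (p : Closed A) : Term.subst σ p = p := by
  induction p with
  | eps => rfl
  | act a => rfl
  | var x => exact x.elim
  | plus p q ihp ihq => simp [Term.subst, ihp, ihq]
  | seq p q ihp ihq => simp [Term.subst, ihp, ihq]
  | star p q ihp ihq => simp [Term.subst, ihp, ihq]

theorem nul_subst (σ : V → Closed A) (hD : ∀ x, D x ↔ nul0 (σ x)) (s : Term A V) :
    nul0 (s.subst σ) ↔ nul D s := by
  induction s with
  | eps => rfl
  | act a => rfl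
  | var x => exact (hD x).symm
  | plus p q ihp ihq => exact or_congr ihp ihq
  | seq p q ihp ihq => exact and_congr ihp ihq
  | star p q _ ihq => exact ihq

end Pool.Agent.H.MP_32323c_lc
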