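import Pool.Agent.H.MP_32323c_lc.A

namespace Pool.Agent.H.MP_32323c_lc

inductive J : Type
  | N : ℕ → J
  | M : ℕ → J

open J

def J.null : J → Prop
  | .N _ => True
  | .M _ => False

def ch : ℕ → J
  | 0 => M 0
  | i + 1 => N (i + 1)

def lab (n : ℕ) : J → Set J
  | .N 0 => {N 0, M n}
  | .N (i + 1) => {N 0, M n, ch i}
  | .M j => {N j}

def gd (P : Prop) (κ : Set J) : Set J := {j | P ∧ j ∈ κ}

@[simp] theorem mem_gd {P : Prop} {κ : Set J} {j : J} : j ∈ gd P κ ↔ P ∧ j ∈ κ := Iff.rfl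

variable {A V : Type}

def Ty (a : A) (n : ℕ) : Closed A → Set J → Prop → Set J → Prop
  | .eps, _, _, Λ => Λ = ∅
  | .act b, κ, ν, Λ => b = a ∧ ∃ j, Λ = {j} ∧ κ = lab n j ∧ (ν ↔ j.null)
  | .var _, _, _, _ => False
  | .plus p q, κ, ν, Λ => ∃ Λ₁ Λ₂, Ty a n p κ ν Λ₁ ∧ Ty a n q κ ν Λ₂ ∧ Λ = Λ₁ ∪ Λ₂
  | .seq p q, κ, ν, Λ => ∃ Λ₁ Λ₂, Ty a n q κ ν Λ₂ ∧
      Ty a n p (Λ₂ ∪ gd (nul0 q) κ) (nul0 q ∧ ν) Λ₁ ∧ Λ = Λ₁ ∪ gd (nul0 p) Λ₂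
  | .star p q, κ, ν, Λ => ∃ Λ₁ Λ₂, Ty a n q κ ν Λ₂ ∧
      Ty a n p (Λ₁ ∪ Λ₂ ∪ gd (nul0 q) κ) (nul0 q ∧ ν) Λ₁ ∧ Λ = Λ₁ ∪ Λ₂

def hasL : Closed A → Prop
  | .eps => False
  | .act _ => True
  | .var _ => False
  | .plus p q => hasL p ∨ hasL q
  | .seq p q => hasL p ∨ hasL q
  | .star p q => hasL p ∨ hasL q

theorem nul_of_not_hasL (u : Closed A) (h : ¬ hasL u) : nul0 u := by
  induction u with
  | eps => trivial
  | act a => exact (h trivial).elim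
  | var x => exact x.elim
  | plus p q ihp _ => exact Or.inl (ihp fun h' => h (Or.inl h'))
  | seq p q ihp ihq => exact ⟨ihp fun h' => h (Or.inl h'), ihq fun h' => h (Or.inr h')⟩
  | star p q _ ihq => exact ihq fun h' => h (Or.inr h')

theorem exists_stp_of_hasL (u : Closed A) (h : hasL u) : ∃ ξ u', stp0 u ξ u' := by
  induction u with
  | eps => exact h.elim
  | act a => exact ⟨_, _, rfl, rfl⟩
  | var x => exact x.elim
  | plus p q ihp ihq =>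
    rcases h with h | h
    · obtain ⟨ξ, u', h⟩ := ihp h
      exact ⟨ξ, u', Or.inl h⟩
    · obtain ⟨ξ, u', h⟩ := ihq h
      exact ⟨ξ, u', Or.inr h⟩
  | seq p q ihp ihq =>
    by_cases hp : hasL p
    · obtain ⟨ξ, u', h⟩ := ihp hp
      exact ⟨ξ, _, Or.inl ⟨u', h, rfl⟩⟩
    · obtain ⟨ξ, u', h⟩ := ihq (h.resolve_left hp)
      exact ⟨ξ, u', Or.inr ⟨nul_of_not_hasL p hp, h⟩⟩
  | star p q ihp ihq =>
    rcases h with h | h
    · obtain ⟨ξ, u', h⟩ := ihp h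
      exact ⟨ξ, _, Or.inl ⟨u', h, rfl⟩⟩
    · obtain ⟨ξ, u', h⟩ := ihq h
      exact ⟨ξ, u', Or.inr h⟩

variable {a : A} {n : ℕ}

theorem ty_congr {u : Closed A} {κ κ' : Set J} {ν ν' : Prop} {Λ Λ' : Set J}
    (h : Ty a n u κ ν Λ) (h1 : κ = κ') (h2 : ν ↔ ν') (h3 : Λ = Λ') : Ty a n u κ' ν' Λ' := by
  rw [← h1, ← propext h2, ← h3]
  exact h

theorem ty_noL (u : Closed A) (h : ¬ hasL u) (κ : Set J) (ν : Prop) (Λ : Set J) :
    Ty a n u κ ν Λ ↔ Λ = ∅ := by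
  induction u generalizing κ ν Λ with
  | eps => rfl
  | act a => exact (h trivial).elim
  | var x => exact x.elim
  | plus p q ihp ihq =>
    simp [Ty, ihp fun h' => h (Or.inl h'), ihq fun h' => h (Or.inr h')]
  | seq p q ihp ihq =>
    simp only [Ty, ihp fun h' => h (Or.inl h'), ihq fun h' => h (Or.inr h')]
    constructor
    · rintro ⟨_, _, rfl, rfl, rfl⟩
      ext j
      simp
    · rintro rfl
      refine ⟨∅, ∅, rfl, rfl, ?_⟩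
      ext j
      simp
  | star p q ihp ihq =>
    simp [Ty, ihp fun h' => h (Or.inl h'), ihq fun h' => h (Or.inr h')]

def atom (σ : V → Closed A) : A ⊕ V → Closed A
  | .inl b => .act b
  | .inr x => σ x

abbrev DD (σ : V → Closed A) : V → Prop := fun x => nul0 (σ x)
abbrev HH (σ : V → Closed A) : V → Prop := fun x => hasL (σ x)

theorem nul_sub (σ : V → Closed A) (s : Term A V) : nul0 (s.subst σ) ↔ nul (DD σ) s :=
  nul_subst σ (fun _ => Iff.rfl) s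

theorem hasL_atom {σ : V → Closed A} {s : Term A V} {ξ t} (h : stp (DD σ) (HH σ) s ξ t) :
    hasL (atom σ ξ) := by
  induction s generalizing t with
  | eps => exact h.elim
  | act a =>
    obtain ⟨rfl, -⟩ := h
    trivial
  | var x =>
    obtain ⟨h, rfl, -⟩ := h
    exact h
  | plus p q ihp ihq => exact h.elim ihp ihq
  | seq p q ihp ihq =>
    rcases h with ⟨_, h, -⟩ | ⟨-, h⟩
    · exact ihp h
    · exact ihq h
  | star p q ihp ihq =>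
    rcases h with ⟨_, h, -⟩ | h
    · exact ihp h
    · exact ihq h

/-- Typing data attached to a step. -/
def Dat (a : A) (n : ℕ) (σ : V → Closed A) (κ : Set J) (ν : Prop) (ξ : A ⊕ V) (t : Term A V)
    (Λo : Set J) : Prop :=
  ∃ Λ', Ty a n (t.subst σ) κ ν Λ' ∧
    Ty a n (atom σ ξ) (Λ' ∪ gd (nul (DD σ) t) κ) (nul (DD σ) t ∧ ν) Λo

theorem dat_seq {σ : V → Closed A} {κ : Set J} {ν : Prop} {ξ : A ⊕ V} {t q : Term A V}
    {Λo Λ₂ : Set J} (hq : Ty a n (q.subst σ) κ ν Λ₂)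
    (h : Dat a n σ (Λ₂ ∪ gd (nul0 (q.subst σ)) κ) (nul0 (q.subst σ) ∧ ν) ξ t Λo) :
    Dat a n σ κ ν ξ (.seq t q) Λo := by
  obtain ⟨Λ', h1, h2⟩ := h
  refine ⟨Λ' ∪ gd (nul0 (t.subst σ)) Λ₂, ⟨Λ', Λ₂, hq, h1, rfl⟩, ty_congr h2 ?_ ?_ rfl⟩
  · ext j
    simp only [nul, nul_sub, Set.mem_union, mem_gd]
    tauto
  · simp only [nul, nul_sub]
    tauto

theorem dat_eps {σ : V → Closed A} {κ : Set J} {ν : Prop} {ξ : A ⊕ V} {Λ : Set J}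
    (h : Ty a n (atom σ ξ) κ ν Λ) : Dat a n σ κ ν ξ .eps Λ := by
  refine ⟨∅, rfl, ty_congr h ?_ ?_ rfl⟩
  · ext j
    simp [nul]
  · simp [nul]

theorem S_fwd {σ : V → Closed A} {s : Term A V} {κ : Set J} {ν : Prop} {Λ : Set J}
    (h : Ty a n (s.subst σ) κ ν Λ) {ξ t} (hs : stp (DD σ) (HH σ) s ξ t) :
    ∃ Λo, Dat a n σ κ ν ξ t Λo ∧ Λo ⊆ Λ := by
  induction s generalizing κ ν Λ t with
  | eps => exact hs.elim
  | act b =>
    obtain ⟨rfl, rfl⟩ := hs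
    exact ⟨Λ, dat_eps h, subset_rfl⟩
  | var x =>
    obtain ⟨-, rfl, rfl⟩ := hs
    exact ⟨Λ, dat_eps h, subset_rfl⟩
  | plus p q ihp ihq =>
    obtain ⟨Λ₁, Λ₂, h1, h2, rfl⟩ := h
    rcases hs with hs | hs
    · obtain ⟨Λo, h3, h4⟩ := ihp h1 hs
      exact ⟨Λo, h3, h4.trans Set.subset_union_left⟩
    · obtain ⟨Λo, h3, h4⟩ := ihq h2 hs
      exact ⟨Λo, h3, h4.trans Set.subset_union_right⟩
  | seq p q ihp ihq =>
    obtain ⟨Λ₁, Λ₂, h1, h2, rfl⟩ := h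
    rcases hs with ⟨p', hs, rfl⟩ | ⟨hp, hs⟩
    · obtain ⟨Λo, h3, h4⟩ := ihp h2 hs
      exact ⟨Λo, dat_seq h1 h3, h4.trans Set.subset_union_left⟩
    · obtain ⟨Λo, h3, h4⟩ := ihq h1 hs
      exact ⟨Λo, h3, fun j hj => Or.inr ⟨(nul_sub σ p).2 hp, h4 hj⟩⟩
  | star p q ihp ihq =>
    have h' := h
    obtain ⟨Λ₁, Λ₂, h1, h2, rfl⟩ := h
    rcases hs with ⟨p', hs, rfl⟩ | hs
    · obtain ⟨Λo, h3, h4⟩ := ihp h2 hs
      exact ⟨Λo, dat_seq (q := .star p q) h' h3, h4.trans Set.subset_union_left⟩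
    · obtain ⟨Λo, h3, h4⟩ := ihq h1 hs
      exact ⟨Λo, h3, h4.trans Set.subset_union_right⟩

theorem S_bwd {σ : V → Closed A} {s : Term A V} {κ : Set J} {ν : Prop} {Λ : Set J}
    (h : Ty a n (s.subst σ) κ ν Λ) {j} (hj : j ∈ Λ) :
    ∃ ξ t Λo, stp (DD σ) (HH σ) s ξ t ∧ Dat a n σ κ ν ξ t Λo ∧ j ∈ Λo := by
  induction s generalizing κ ν Λ with
  | eps =>
    obtain rfl : Λ = ∅ := h
    exact hj.elim
  | act b => exact ⟨.inl b, .eps, Λ, ⟨rfl, rfl⟩, dat_eps h, hj⟩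
  | var x =>
    have hx : hasL (σ x) := by
      by_contra hx
      obtain rfl := (ty_noL _ hx _ _ _).1 h
      exact hj
    exact ⟨.inr x, .eps, Λ, ⟨hx, rfl, rfl⟩, dat_eps h, hj⟩
  | plus p q ihp ihq =>
    obtain ⟨Λ₁, Λ₂, h1, h2, rfl⟩ := h
    rcases hj with hj | hj
    · obtain ⟨ξ, t, Λo, h3, h4⟩ := ihp h1 hj
      exact ⟨ξ, t, Λo, Or.inl h3, h4⟩
    · obtain ⟨ξ, t, Λo, h3, h4⟩ := ihq h2 hj
      exact ⟨ξ, t, Λo, Or.inr h3, h4⟩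
  | seq p q ihp ihq =>
    obtain ⟨Λ₁, Λ₂, h1, h2, rfl⟩ := h
    rcases hj with hj | ⟨hp, hj⟩
    · obtain ⟨ξ, t, Λo, h3, h4, h5⟩ := ihp h2 hj
      exact ⟨ξ, _, Λo, Or.inl ⟨t, h3, rfl⟩, dat_seq h1 h4, h5⟩
    · obtain ⟨ξ, t, Λo, h3, h4⟩ := ihq h1 hj
      exact ⟨ξ, t, Λo, Or.inr ⟨(nul_sub σ p).1 hp, h3⟩, h4⟩
  | star p q ihp ihq =>
    have h' := h
    obtain ⟨Λ₁, Λ₂, h1, h2, rfl⟩ := h
    rcases hj with hj | hj
    · obtain ⟨ξ, t, Λo, h3, h4, h5⟩ := ihp h2 hj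
      exact ⟨ξ, _, Λo, Or.inl ⟨t, h3, rfl⟩, dat_seq (q := .star p q) h' h4, h5⟩
    · obtain ⟨ξ, t, Λo, h3, h4⟩ := ihq h1 hj
      exact ⟨ξ, t, Λo, Or.inr h3, h4⟩

/-- A typed derivative of type `j`. -/
def St (a : A) (n : ℕ) (κ : Set J) (ν : Prop) (u : Closed A) (j : J) : Prop :=
  ∃ Λ', Ty a n u κ ν Λ' ∧ Λ' ∪ gd (nul0 u) κ = lab n j ∧ ((nul0 u ∧ ν) ↔ j.null)

theorem DD_empty : DD (Empty.elim : Empty → Closed A) = no := by
  funext x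
  exact x.elim

theorem HH_empty : HH (Empty.elim : Empty → Closed A) = no := by
  funext x
  exact x.elim

theorem dat_closed {κ : Set J} {ν : Prop} {ξ : A ⊕ Empty} {t : Closed A} {Λo : Set J}
    (h : Dat a n Empty.elim κ ν ξ t Λo) : ∃ j, Λo = {j} ∧ St a n κ ν t j := by
  obtain ⟨Λ', h1, h2⟩ := h
  rcases ξ with b | e
  · obtain ⟨-, j, rfl, h3, h4⟩ := h2
    rw [subst_closed] at h1
    rw [DD_empty] at h3 h4
    exact ⟨j, rfl, Λ', h1, h3, h4⟩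
  · exact e.elim

theorem m_fwd {u : Closed A} {κ : Set J} {ν : Prop} {Λ : Set J} (h : Ty a n u κ ν Λ) {ξ u'}
    (hs : stp0 u ξ u') : ∃ j ∈ Λ, St a n κ ν u' j := by
  have h' : Ty a n (Term.subst Empty.elim u) κ ν Λ := by rwa [subst_closed]
  obtain ⟨Λo, h1, h2⟩ := S_fwd h' (ξ := ξ) (t := u') (by rwa [DD_empty, HH_empty])
  obtain ⟨j, rfl, h3⟩ := dat_closed h1
  exact ⟨j, h2 rfl, h3⟩

theorem m_bwd {u : Closed A} {κ : Set J} {ν : Prop} {Λ : Set J} (h : Ty a n u κ ν Λ) {j}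
    (hj : j ∈ Λ) : ∃ ξ u', stp0 u ξ u' ∧ St a n κ ν u' j := by
  have h' : Ty a n (Term.subst Empty.elim u) κ ν Λ := by rwa [subst_closed]
  obtain ⟨ξ, t, Λo, h0, h1, h2⟩ := S_bwd h' hj
  obtain ⟨j', rfl, h3⟩ := dat_closed h1
  obtain rfl : j = j' := h2
  rw [DD_empty, HH_empty] at h0
  exact ⟨ξ, t, h0, h3⟩

theorem nonempty_of_hasL {u : Closed A} {κ : Set J} {ν : Prop} {Λ : Set J}
    (h : Ty a n u κ ν Λ) (hu : hasL u) : ∃ j, j ∈ Λ := by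
  obtain ⟨ξ, u', hs⟩ := exists_stp_of_hasL u hu
  obtain ⟨j, hj, -⟩ := m_fwd h hs
  exact ⟨j, hj⟩

theorem kind_M {u : Closed A} {κ : Set J} {ν : Prop} {Λ : Set J} (h : Ty a n u κ ν Λ)
    (hν : ¬ ν) {j} (hj : j ∈ Λ) : ¬ j.null := by
  obtain ⟨ξ, u', -, Λ', -, -, h3⟩ := m_bwd h hj
  tauto

theorem P1a {u : Closed A} {κ : Set J} {ν : Prop} {Λ : Set J} (h : Ty a n u κ ν Λ)
    (hν : ¬ ν) {j} (hj : j ∈ Λ) : ∃ m, j = M m ∧ κ = {N m} := by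
  have hk := kind_M h hν hj
  obtain ⟨ξ, u', -, Λ', h1, h2, -⟩ := m_bwd h hj
  cases j with
  | N i => exact (hk trivial).elim
  | M m =>
    refine ⟨m, rfl, ?_⟩
    have h3 : N m ∈ Λ' ∪ gd (nul0 u') κ := by rw [h2]; rfl
    rcases h3 with h3 | ⟨h3, h4⟩
    · exact (kind_M h1 hν h3 trivial).elim
    · ext j
      refine ⟨fun hj => ?_, fun hj => ?_⟩
      · have : j ∈ Λ' ∪ gd (nul0 u') κ := Or.inr ⟨h3, hj⟩
        rwa [h2] at this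
      · obtain rfl : j = N m := hj
        exact h4

theorem P2 {u : Closed A} {κ κ' : Set J} {ν : Prop} {Λ Λ' : Set J} (h : Ty a n u κ ν Λ)
    (h' : Ty a n u κ' ν Λ') {j} (hj : j ∈ Λ) : ∃ j' ∈ Λ', (j.null ↔ j'.null) := by
  obtain ⟨ξ, u', hs, _, -, -, h3⟩ := m_bwd h hj
  obtain ⟨j', hj', _, -, -, h4⟩ := m_fwd h' hs
  exact ⟨j', hj', h3.symm.trans h4⟩

theorem ch_mem_lab (hn : 1 ≤ n) {i m : ℕ} : ch i ∈ lab n (N m) ↔ m = i + 1 := by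
  cases i <;> cases m <;> simp [lab, ch] <;> first | omega | (rename_i k; cases k <;> simp [ch] <;> omega)

theorem P3 (hn : 1 ≤ n) {u : Closed A} {κ : Set J} {ν : Prop} {Λ : Set J} (h : Ty a n u κ ν Λ)
    (hν : ν) {i} (hi : ch i ∈ κ) {j} (hj : j ∈ Λ) : j = N (i + 1) ∨ j = M (i + 1) := by
  have key : ∀ {u : Closed A} {Λ : Set J}, Ty a n u κ ν Λ → ∀ {m}, N m ∈ Λ → m = i + 1 := by
    intro u Λ h m hm
    obtain ⟨ξ, u', -, Λ', -, h2, h3⟩ := m_bwd h hm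
    have h4 : nul0 u' := (h3.2 trivial).1
    rw [← ch_mem_lab hn, ← h2]
    exact Or.inr ⟨h4, hi⟩
  cases j with
  | N m => exact Or.inl (by rw [key h hj])
  | M m =>
    obtain ⟨ξ, u', -, Λ', h1, h2, h3⟩ := m_bwd h hj
    have h4 : N m ∈ Λ' ∪ gd (nul0 u') κ := by rw [h2]; rfl
    rcases h4 with h4 | ⟨h4, -⟩
    · exact Or.inr (by rw [key h1 h4])
    · exact (h3.1 ⟨h4, hν⟩).elim

theorem mem_lab_self (hn : 1 ≤ n) {i : ℕ} {j : J} (h : j = N (i + 1) ∨ j = M (i + 1))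
    (hj : j ∈ lab n (N (i + 1))) : j = M n ∧ i + 1 = n := by
  rcases h with rfl | rfl <;> cases i <;> simp [lab, ch] at hj ⊢ <;> omega

theorem exists_nul_der {u : Closed A} {κ : Set J} {ν : Prop} {Λ : Set J} (h : Ty a n u κ ν Λ)
    (hν : ν) (hu : hasL u) : ∃ u' Λ' m, Ty a n u' κ ν Λ' ∧ Λ' ∪ κ = lab n (N m) := by
  have key : ∀ {u : Closed A} {Λ : Set J}, Ty a n u κ ν Λ → ∀ {m}, N m ∈ Λ →
      ∃ u' Λ' m, Ty a n u' κ ν Λ' ∧ Λ' ∪ κ = lab n (N m) := by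
    intro u Λ h m hm
    obtain ⟨ξ, u', -, Λ', h1, h2, h3⟩ := m_bwd h hm
    have h4 : nul0 u' := (h3.2 trivial).1
    refine ⟨u', Λ', m, h1, ?_⟩
    rw [← h2]
    ext j
    simp [h4]
  obtain ⟨j, hj⟩ := nonempty_of_hasL h hu
  cases j with
  | N m => exact key h hj
  | M m =>
    obtain ⟨ξ, u', -, Λ', h1, h2, h3⟩ := m_bwd h hj
    have h4 : N m ∈ Λ' ∪ gd (nul0 u') κ := by rw [h2]; rfl
    rcases h4 with h4 | ⟨h4, -⟩
    · exact key h1 h4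
    · exact (h3.1 ⟨h4, hν⟩).elim

theorem P1b (hn : 1 ≤ n) {u : Closed A} {κ : Set J} {ν : Prop} {Λ : Set J} (h : Ty a n u κ ν Λ)
    (hν : ν) (hu : hasL u) :
    (∃ i, ch i ∈ κ ∧ κ ⊆ lab n (N (i + 1)) ∧ N 0 ∈ κ ∧ (κ = lab n (N (i + 1)) ∨ i + 1 = n)) ∨
      ((∀ i, ch i ∉ κ) ∧ κ ⊆ {N 0, M n}) := by
  obtain ⟨u', Λ', m, h1, h2⟩ := exists_nul_der h hν hu
  have hsub : κ ⊆ lab n (N m) := h2 ▸ Set.subset_union_right
  by_cases hc : ∃ i, ch i ∈ κ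
  · obtain ⟨i, hi⟩ := hc
    obtain rfl := (ch_mem_lab hn).1 (hsub hi)
    have h3 : ∀ j ∈ Λ', j = M n ∧ i + 1 = n := fun j hj =>
      mem_lab_self hn (P3 hn h1 hν hi hj) (h2 ▸ Or.inl hj)
    refine Or.inl ⟨i, hi, hsub, ?_, ?_⟩
    · have : N 0 ∈ Λ' ∪ κ := by rw [h2]; simp [lab]
      rcases this with h4 | h4
      · simpa using (h3 _ h4).1
      · exact h4
    · by_cases hΛ : ∃ j, j ∈ Λ'
      · obtain ⟨j, hj⟩ := hΛ
        exact Or.inr (h3 j hj).2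
      · left
        rw [← h2]
        ext j
        have := not_exists.1 hΛ j
        simp [this]
  · refine Or.inr ⟨not_exists.1 hc, fun j hj => ?_⟩
    have h3 := hsub hj
    cases m with
    | zero => exact h3
    | succ m =>
      rcases h3 with h3 | h3 | h3
      · exact Or.inl h3
      · exact Or.inr h3
      · exact (hc ⟨m, by rw [← show j = ch m from h3]; exact hj⟩).elim

theorem P4 (hn : 1 ≤ n) {u : Closed A} {κ κ' : Set J} {ν : Prop} {Λ Λ' : Set J}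
    (h : Ty a n u κ ν Λ) (h' : Ty a n u κ' ν Λ') (hν : ν) (hκ : ∀ i, ch i ∉ κ) {m}
    (hm : N (m + 1) ∈ Λ) {i} (hi : ch i ∈ κ') : m = 0 := by
  obtain ⟨ξ, u₁, hs, Λ₁, h1, h2, h3⟩ := m_bwd h hm
  have hu₁ : nul0 u₁ := (h3.2 trivial).1
  have h4 : ch m ∈ Λ₁ := by
    have : ch m ∈ Λ₁ ∪ gd (nul0 u₁) κ := by rw [h2, ch_mem_lab hn]
    exact this.resolve_right fun h => hκ _ h.2
  obtain ⟨ξ', u₂, hs', _, -, -, h5⟩ := m_bwd h1 h4
  obtain ⟨j₂, hj₂, Λ₂, h6, h7, h8⟩ := m_fwd h' hs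
  obtain ⟨j₃, hj₃, _, -, -, h9⟩ := m_fwd h6 hs'
  have h10 : j₂ = N (i + 1) := by
    rcases P3 hn h' hν hi hj₂ with h | rfl
    · exact h
    · exact (h8.1 ⟨hu₁, hν⟩).elim
  subst h10
  obtain ⟨rfl, -⟩ := mem_lab_self hn (P3 hn h6 hν hi hj₃) (h7 ▸ Or.inl hj₃)
  cases m with
  | zero => rfl
  | succ m => exact (h9.1 (h5.2 trivial)).elim

theorem eq_of_kinds {Λ Λ' : Set J} {p q : ℕ} (h : Λ ⊆ {N p, M q}) (h' : Λ' ⊆ {N p, M q})
    (hk : ∀ j ∈ Λ, ∃ j' ∈ Λ', (j.null ↔ j'.null)) : Λ ⊆ Λ' := by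
  intro j hj
  obtain ⟨j', hj', h1⟩ := hk j hj
  rcases h hj with rfl | rfl <;> rcases h' hj' with rfl | rfl <;> simp_all [J.null]

theorem ty_unique (hn : 1 ≤ n) {u : Closed A} {κ : Set J} {ν : Prop} {Λ Λ' : Set J}
    (h : Ty a n u κ ν Λ) (h' : Ty a n u κ ν Λ') : Λ = Λ' := by
  induction u generalizing κ ν Λ Λ' with
  | eps => exact h.trans (Eq.symm h')
  | act b =>
    obtain ⟨-, j, rfl, h1, h2⟩ := h
    obtain ⟨-, j', rfl, h1', h2'⟩ := h'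
    have h3 : lab n j = lab n j' := h1.symm.trans h1'
    have h4 : j.null ↔ j'.null := h2.symm.trans h2'
    congr 1
    cases j with
    | N i =>
      cases j' with
      | N i' =>
        congr 1
        cases i with
        | zero =>
          cases i' with
          | zero => rfl
          | succ i' => exact (ch_mem_lab hn).1 (h3 ▸ (ch_mem_lab hn).2 rfl)
        | succ i => exact ((ch_mem_lab hn).1 (h3 ▸ (ch_mem_lab hn).2 rfl)).symm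
      | M i' => exact (h4.1 trivial).elim
    | M i =>
      cases j' with
      | N i' => exact (h4.2 trivial).elim
      | M i' => simpa [lab] using h3
  | var x => exact x.elim
  | plus p q ihp ihq =>
    obtain ⟨Λ₁, Λ₂, h1, h2, rfl⟩ := h
    obtain ⟨Λ₁', Λ₂', h1', h2', rfl⟩ := h'
    rw [ihp h1 h1', ihq h2 h2']
  | seq p q ihp ihq =>
    obtain ⟨Λ₁, Λ₂, h1, h2, rfl⟩ := h
    obtain ⟨Λ₁', Λ₂', h1', h2', rfl⟩ := h'
    obtain rfl := ihq h1 h1'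
    rw [ihp h2 h2']
  | star p q ihp ihq =>
    obtain ⟨Λ₁, Λ₂, h1, h2, rfl⟩ := h
    obtain ⟨Λ₁', Λ₂', h1', h2', rfl⟩ := h'
    obtain rfl := ihq h1 h1'
    have key : ∀ {Λ₁ Λ₁' : Set J},
        Ty a n p (Λ₁ ∪ Λ₂ ∪ gd (nul0 q) κ) (nul0 q ∧ ν) Λ₁ →
        Ty a n p (Λ₁' ∪ Λ₂ ∪ gd (nul0 q) κ) (nul0 q ∧ ν) Λ₁' → hasL p →
        (∃ m, Λ₁ ⊆ {N 0, M n} ∧ (∀ i, ch i ∉ Λ₁) ∧ m = 0) := by
      intro Λ₁ Λ₁' h2 _ hp
      have hν : nul0 q ∧ ν := by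
        by_contra hν
        obtain ⟨j, hj⟩ := nonempty_of_hasL h2 hp
        obtain ⟨m, rfl, h3⟩ := P1a h2 hν hj
        have : M m ∈ Λ₁ ∪ Λ₂ ∪ gd (nul0 q) κ := Or.inl (Or.inl hj)
        rw [h3] at this
        simp at this
      rcases P1b hn h2 hν hp with ⟨i, h3, h4, -, -⟩ | ⟨h3, h4⟩
      · have h5 : ∀ j ∈ Λ₁, j = M n := fun j hj =>
          (mem_lab_self hn (P3 hn h2 hν h3 hj) (h4 (Or.inl (Or.inl hj)))).1
        refine ⟨0, fun j hj => Or.inr (h5 j hj), fun i hi => ?_, rfl⟩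
        have := h5 _ hi
        cases i <;> simp [ch] at this
        omega
      · exact ⟨0, fun j hj => h4 (Or.inl (Or.inl hj)), fun i hi => h3 i (Or.inl (Or.inl hi)), rfl⟩
    by_cases hp : hasL p
    · obtain ⟨_, h3, -, -⟩ := key h2 h2' hp
      obtain ⟨_, h3', -, -⟩ := key h2' h2 hp
      rw [Set.Subset.antisymm (eq_of_kinds h3 h3' fun j hj => P2 h2 h2' hj)
        (eq_of_kinds h3' h3 fun j hj => P2 h2' h2 hj)]
    · rw [(ty_noL _ hp _ _ _).1 h2, (ty_noL _ hp _ _ _).1 h2']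

end Pool.Agent.H.MP_32323c_lc
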