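import Pool.Agent.H.MP_32323c_lc.B

namespace Pool.Agent.H.MP_32323c_lc

open J

variable {A V : Type} {a : A} {n : ℕ}

open Classical in
noncomputable def pot (κ : Set J) (ν : Prop) : ℕ :=
  if ν then (if ∃ i, ch i ∈ κ then 2 * sInf {i | ch i ∈ κ} + 2 else 0)
  else 2 * sInf {j | N j ∈ κ} + 1

def Shape (n : ℕ) (κ : Set J) (ν : Prop) : Prop :=
  (¬ ν ∧ ∃ j, κ = {N j} ∧ pot κ ν = 2 * j + 1) ∨
  (ν ∧ ∃ i, ch i ∈ κ ∧ κ ⊆ lab n (N (i + 1)) ∧ N 0 ∈ κ ∧ (κ = lab n (N (i + 1)) ∨ i + 1 = n) ∧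
    pot κ ν = 2 * i + 2) ∨
  (ν ∧ (∀ i, ch i ∉ κ) ∧ κ ⊆ {N 0, M n} ∧ pot κ ν = 0)

theorem shape_of_ty (hn : 1 ≤ n) {u : Closed A} {κ : Set J} {ν : Prop} {Λ : Set J}
    (h : Ty a n u κ ν Λ) (hu : hasL u) : Shape n κ ν := by
  by_cases hν : ν
  · rcases P1b hn h hν hu with ⟨i, h1, h2, h3, h4⟩ | ⟨h1, h2⟩
    · refine Or.inr (Or.inl ⟨hν, i, h1, h2, h3, h4, ?_⟩)
      have : {i | ch i ∈ κ} = {i} := by
        ext k
        refine ⟨fun hk => ?_, fun hk => ?_⟩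
        · have := (ch_mem_lab hn).1 (h2 hk)
          simp only [Set.mem_singleton_iff]
          omega
        · obtain rfl : k = i := hk
          exact h1
      simp only [pot, if_pos hν, if_pos (⟨i, h1⟩ : ∃ i, ch i ∈ κ), this, csInf_singleton]
    · refine Or.inr (Or.inr ⟨hν, h1, h2, ?_⟩)
      simp only [pot, if_pos hν, if_neg (not_exists.2 h1)]
  · obtain ⟨j, hj⟩ := nonempty_of_hasL h hu
    obtain ⟨m, -, rfl⟩ := P1a h hν hj
    refine Or.inl ⟨hν, m, rfl, ?_⟩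
    have : {j | N j ∈ ({N m} : Set J)} = {m} := by
      ext k
      simp
    simp only [pot, if_neg hν, this, csInf_singleton]

theorem shape_eq (hn : 2 ≤ n) {κ κ' : Set J} {ν : Prop} (h : Shape n κ ν) (h' : Shape n κ' ν)
    (hp : pot κ ν = pot κ' ν) (hk : ∀ j ∈ κ, ∃ j' ∈ κ', (j.null ↔ j'.null)) : κ ⊆ κ' := by
  rcases h with ⟨h0, j, rfl, h1⟩ | ⟨h0, i, h1, h2, h3, h4, h5⟩ | ⟨h0, h1, h2, h3⟩ <;>
    rcases h' with ⟨h0', j', rfl, h1'⟩ | ⟨h0', i', h1', h2', h3', h4', h5'⟩ | ⟨h0', h1', h2', h3'⟩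
  · obtain rfl : j = j' := by omega
    exact subset_rfl
  · exact (h0 h0').elim
  · exact (h0 h0').elim
  · exact (h0' h0).elim
  · obtain rfl : i = i' := by omega
    rcases h4' with rfl | h4'
    · exact h2
    · intro j hj
      rcases h2 hj with rfl | rfl | rfl
      · exact h3'
      · obtain ⟨j', hj', h6⟩ := hk _ hj
        rcases h2' hj' with rfl | rfl | rfl
        · exact (h6.2 trivial).elim
        · exact hj'
        · obtain ⟨i, rfl⟩ : ∃ k, i = k + 1 := ⟨i - 1, by omega⟩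
          exact (h6.2 trivial).elim
      · exact h1'
  · omega
  · exact (h0' h0).elim
  · omega
  · exact eq_of_kinds h2 h2' hk

section

variable (a n) (σ : V → Closed A) (κ : Set J) (ν : Prop)

def lam (s : Term A V) : Set J :=
  {j | ∃ Λ', Ty a n (s.subst σ) κ ν Λ' ∧ j ∈ Λ'} ∪ gd (nul (DD σ) s) κ

noncomputable def potS (s : Term A V) : ℕ := pot (lam a n σ κ ν s) (nul (DD σ) s ∧ ν)

/-- A typed state that is the target of a step. -/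
def Good (s : Term A V) : Prop :=
  (∃ Λ', Ty a n (s.subst σ) κ ν Λ') ∧ Shape n (lam a n σ κ ν s) (nul (DD σ) s ∧ ν)

end

variable {σ : V → Closed A} {κ : Set J} {ν : Prop}

theorem lam_eq (hn : 1 ≤ n) {s : Term A V} {Λ' : Set J} (h : Ty a n (s.subst σ) κ ν Λ') :
    lam a n σ κ ν s = Λ' ∪ gd (nul (DD σ) s) κ := by
  unfold lam
  congr 1
  ext j
  refine ⟨fun ⟨Λ'', h1, h2⟩ => ?_, fun hj => ⟨Λ', h, hj⟩⟩
  rwa [ty_unique hn h h1]

theorem dat_iff (hn : 1 ≤ n) {ξ : A ⊕ V} {t : Term A V} {Λo : Set J}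
    (h : Dat a n σ κ ν ξ t Λo) : (∃ Λ', Ty a n (t.subst σ) κ ν Λ') ∧
      Ty a n (atom σ ξ) (lam a n σ κ ν t) (nul (DD σ) t ∧ ν) Λo := by
  obtain ⟨Λ', h1, h2⟩ := h
  exact ⟨⟨Λ', h1⟩, by rwa [lam_eq hn h1]⟩

theorem fwd' (hn : 1 ≤ n) {s : Term A V} {Λ : Set J} (h : Ty a n (s.subst σ) κ ν Λ) {ξ t}
    (hs : stp (DD σ) (HH σ) s ξ t) : Good a n σ κ ν t ∧
      ∃ Λo, Ty a n (atom σ ξ) (lam a n σ κ ν t) (nul (DD σ) t ∧ ν) Λo ∧ Λo ⊆ Λ := by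
  obtain ⟨Λo, h1, h2⟩ := S_fwd h hs
  obtain ⟨h3, h4⟩ := dat_iff hn h1
  exact ⟨⟨h3, shape_of_ty hn h4 (hasL_atom hs)⟩, Λo, h4, h2⟩

theorem bwd' (hn : 1 ≤ n) {s : Term A V} {Λ : Set J} (h : Ty a n (s.subst σ) κ ν Λ) {j}
    (hj : j ∈ Λ) : ∃ ξ t Λo, stp (DD σ) (HH σ) s ξ t ∧
      Ty a n (atom σ ξ) (lam a n σ κ ν t) (nul (DD σ) t ∧ ν) Λo ∧ j ∈ Λo := by
  obtain ⟨ξ, t, Λo, h1, h2, h3⟩ := S_bwd h hj
  exact ⟨ξ, t, Λo, h1, (dat_iff hn h2).2, h3⟩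

theorem edge_good (hn : 1 ≤ n) {s : Term A V} {Λ : Set J} (h : Ty a n (s.subst σ) κ ν Λ) {ξ t}
    (hs : Edge (DD σ) (HH σ) s ξ t) : Good a n σ κ ν t ∧
      ∃ Λo, Ty a n (atom σ ξ) (lam a n σ κ ν t) (nul (DD σ) t ∧ ν) Λo := by
  induction hs generalizing Λ with
  | step hs =>
    obtain ⟨h1, Λo, h2, -⟩ := fwd' hn h hs
    exact ⟨h1, Λo, h2⟩
  | tail hs _ ih =>
    obtain ⟨⟨⟨Λ', h1⟩, -⟩, -⟩ := fwd' hn h hs
    exact ih h1

theorem kinds (hn : 1 ≤ n) {s t : Term A V} (hs : Good a n σ κ ν s) (ht : Good a n σ κ ν t)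
    (hb : Bis (DD σ) (HH σ) s t) :
    ∀ j ∈ lam a n σ κ ν s, ∃ j' ∈ lam a n σ κ ν t, (j.null ↔ j'.null) := by
  obtain ⟨⟨Λs, hs⟩, -⟩ := hs
  obtain ⟨⟨Λt, ht⟩, -⟩ := ht
  rw [lam_eq hn hs, lam_eq hn ht]
  rintro j (hj | ⟨h1, h2⟩)
  · obtain ⟨ξ, s', Λo, h1, h2, h3⟩ := bwd' hn hs hj
    obtain ⟨t', h4, h5⟩ := hb.fwd h1
    obtain ⟨-, Λo', h6, h7⟩ := fwd' hn ht h4
    rw [← propext h5.nul_iff] at h6
    obtain ⟨j', h8, h9⟩ := P2 h2 h6 h3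
    exact ⟨j', Or.inl (h7 h8), h9⟩
  · exact ⟨j, Or.inr ⟨hb.nul_iff.1 h1, h2⟩, Iff.rfl⟩

theorem lam_eq_of_pot (hn : 2 ≤ n) {s t : Term A V} (hs : Good a n σ κ ν s)
    (ht : Good a n σ κ ν t) (hb : Bis (DD σ) (HH σ) s t)
    (hp : potS a n σ κ ν s = potS a n σ κ ν t) : lam a n σ κ ν s = lam a n σ κ ν t := by
  have h1 := hs.2
  have h2 := ht.2
  unfold potS at hp
  rw [← propext hb.nul_iff] at h2 hp
  exact Set.Subset.antisymm (shape_eq hn h1 h2 hp (kinds (by omega) hs ht hb))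
    (shape_eq hn h2 h1 hp.symm (kinds (by omega) ht hs hb.symm))

theorem pot_of_mem (hn : 1 ≤ n) {κ κ' : Set J} {ν : Prop} (h : Shape n κ ν) (h' : Shape n κ' ν)
    (hp : 1 ≤ pot κ ν) : ∃ δ ∈ κ, (δ ∈ κ' → pot κ ν = pot κ' ν) ∧
      ((∃ j, δ = N j ∧ pot κ ν = 2 * j + 1) ∨ ∃ i, δ = ch i ∧ pot κ ν = 2 * i + 2) := by
  rcases h with ⟨h0, j, rfl, h1⟩ | ⟨h0, i, h1, h2, h3, h4, h5⟩ | ⟨h0, h1, h2, h3⟩
  · refine ⟨N j, rfl, fun hδ => ?_, Or.inl ⟨j, rfl, h1⟩⟩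
    rcases h' with ⟨h0', j', rfl, h1'⟩ | ⟨h0', -⟩ | ⟨h0', -⟩
    · obtain rfl : j = j' := by simpa using hδ
      rfl
    · exact (h0 h0').elim
    · exact (h0 h0').elim
  · refine ⟨ch i, h1, fun hδ => ?_, Or.inr ⟨i, rfl, h5⟩⟩
    rcases h' with ⟨h0', -⟩ | ⟨h0', i', h1', h2', h3', h4', h5'⟩ | ⟨h0', h1', -⟩
    · exact (h0' h0).elim
    · have := (ch_mem_lab hn).1 (h2' hδ)
      omega
    · exact (h1' _ hδ).elim
  · omega

theorem step_bad (hn : 2 ≤ n) {s t : Term A V} (hs : Good a n σ κ ν s)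
    (ht : Good a n σ κ ν t) (hb : Bis (DD σ) (HH σ) s t)
    (hp : potS a n σ κ ν s ≠ potS a n σ κ ν t) (h1 : 1 ≤ potS a n σ κ ν s) :
    ∃ ξ s' t', stp (DD σ) (HH σ) s ξ s' ∧ stp (DD σ) (HH σ) t ξ t' ∧
      Bis (DD σ) (HH σ) s' t' ∧ potS a n σ κ ν s' ≠ potS a n σ κ ν t' ∧
      potS a n σ κ ν s' < potS a n σ κ ν s ∧
      (5 ≤ potS a n σ κ ν s → potS a n σ κ ν s ≤ potS a n σ κ ν s' + 2) := by
  have hn1 : 1 ≤ n := by omega
  have hs2 := hs.2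
  have ht2 := ht.2
  unfold potS at hp h1
  rw [← propext hb.nul_iff] at ht2 hp
  obtain ⟨δ, hδ, hδ1, hδ2⟩ := pot_of_mem hn1 hs2 ht2 h1
  have hδt : δ ∉ lam a n σ κ ν t := fun h => hp (hδ1 h)
  obtain ⟨Λs, hs1⟩ := hs.1
  obtain ⟨Λt, ht1⟩ := ht.1
  rw [lam_eq hn1 ht1] at hδt
  have hδs : δ ∈ Λs := by
    rw [lam_eq hn1 hs1] at hδ
    exact hδ.resolve_right fun h => hδt (Or.inr ⟨hb.nul_iff.1 h.1, h.2⟩)
  obtain ⟨ξ, s', Λo, h2, h3, h4⟩ := bwd' hn1 hs1 hδs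
  obtain ⟨t', h5, h6⟩ := hb.fwd h2
  obtain ⟨ht', Λo', h7, h8⟩ := fwd' hn1 ht1 h5
  obtain ⟨hs', -⟩ := fwd' hn1 hs1 h2
  rw [← propext h6.nul_iff] at h7
  have hne : potS a n σ κ ν s' ≠ potS a n σ κ ν t' := by
    intro h
    rw [← lam_eq_of_pot hn hs' ht' h6 h] at h7
    rw [ty_unique hn1 h3 h7] at h4
    exact hδt (Or.inl (h8 h4))
  refine ⟨ξ, s', t', h2, h5, h6, hne, ?_⟩
  have hs'2 := hs'.2
  have ht'2 := ht'.2
  unfold potS at hne ⊢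
  rw [← propext h6.nul_iff] at ht'2 hne
  rcases hs'2 with ⟨h0, j, hl, hq⟩ | ⟨h0, i, hl, -, -, -, hq⟩ | ⟨h0, hl, -, hq⟩
  · obtain ⟨m, rfl, hm⟩ := P1a h3 h0 h4
    rw [hl] at hm
    obtain rfl : j = m := by simpa using hm
    rcases hδ2 with ⟨j', h9, -⟩ | ⟨i, h9, h10⟩
    · cases h9
    · cases i with
      | zero =>
        obtain rfl : j = 0 := by simpa [ch] using h9
        omega
      | succ i => cases h9
  · rcases P3 hn1 h3 h0 hl h4 with rfl | rfl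
    · rcases hδ2 with ⟨j', h9, h10⟩ | ⟨i', h9, h10⟩
      · obtain rfl : i + 1 = j' := by simpa using h9
        omega
      · cases i' with
        | zero => cases h9
        | succ i' =>
          obtain rfl : i = i' := by simpa [ch] using h9
          omega
    · rcases hδ2 with ⟨j', h9, h10⟩ | ⟨i', h9, h10⟩
      · cases h9
      · cases i' with
        | zero => simp [ch] at h9
        | succ i' => cases h9
  · refine ⟨by omega, fun h5 => ?_⟩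
    exfalso
    rcases ht'2 with ⟨h0', -⟩ | ⟨-, i, hl', -⟩ | ⟨-, -, -, hq'⟩
    · exact h0' h0
    · rcases hδ2 with ⟨j', rfl, h10⟩ | ⟨i', rfl, h10⟩
      · obtain ⟨m, rfl⟩ : ∃ m, j' = m + 1 := ⟨j' - 1, by omega⟩
        have := P4 hn1 h3 h7 h0 hl h4 hl'
        omega
      · obtain ⟨m, rfl⟩ : ∃ m, i' = m + 1 := ⟨i' - 1, by omega⟩
        have := P4 hn1 h3 h7 h0 hl (m := m) h4 hl'
        omega
    · omega

theorem step_zero (hn : 1 ≤ n) {s : Term A V} (hs : Good a n σ κ ν s)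
    (h0 : potS a n σ κ ν s = 0) {ξ s'} (h : stp (DD σ) (HH σ) s ξ s') :
    potS a n σ κ ν s' = 0 ∨ 2 * n ≤ potS a n σ κ ν s' := by
  obtain ⟨Λs, hs1⟩ := hs.1
  obtain ⟨hs', Λo, h1, h2⟩ := fwd' hn hs1 h
  have h3 : Λo ⊆ {N 0, M n} := by
    have hs2 := hs.2
    unfold potS at h0
    rcases hs2 with ⟨-, j, -, hq⟩ | ⟨-, i, -, -, -, -, hq⟩ | ⟨-, -, hl, -⟩
    · omega
    · omega
    · rw [lam_eq hn hs1] at hl
      exact h2.trans (Set.subset_union_left.trans hl)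
  obtain ⟨δ, hδ⟩ := nonempty_of_hasL h1 (hasL_atom h)
  have hs'2 := hs'.2
  unfold potS
  rcases hs'2 with ⟨h0, j, hl, hq⟩ | ⟨h0, i, hl, -, -, -, hq⟩ | ⟨h0, hl, -, hq⟩
  · obtain ⟨m, rfl, hm⟩ := P1a h1 h0 hδ
    rw [hl] at hm
    obtain rfl : j = m := by simpa using hm
    have := h3 hδ
    simp at this
    omega
  · have := h3 hδ
    rcases P3 hn h1 h0 hl hδ with rfl | rfl
    · simp at this
    · simp at this
      omega
  · exact Or.inl hq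

theorem no_bad {l : Term A V} {Λ : Set J} (hl : Ty a n (l.subst σ) κ ν Λ)
    (hn : (ders l).length + 3 ≤ n) {s t : Term A V} {ξ ξ'} (hs : Edge (DD σ) (HH σ) l ξ s)
    (ht : Edge (DD σ) (HH σ) l ξ' t) (hb : Bis (DD σ) (HH σ) s t) :
    lam a n σ κ ν s = lam a n σ κ ν t := by
  classical
  have hn1 : 1 ≤ n := by omega
  have hn2 : 2 ≤ n := by omega
  let Bad : Term A V → Term A V → Prop := fun s t =>
    (∃ ξ, Edge (DD σ) (HH σ) l ξ s) ∧ (∃ ξ, Edge (DD σ) (HH σ) l ξ t) ∧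
      Bis (DD σ) (HH σ) s t ∧ potS a n σ κ ν s ≠ potS a n σ κ ν t
  have hsym : ∀ s t, Bad s t → Bad t s := fun s t h => ⟨h.2.1, h.1, h.2.2.1.symm, h.2.2.2.symm⟩
  have hstep : ∀ s t, Bad s t → 1 ≤ potS a n σ κ ν s → ∃ ξ s' t', Bad s' t' ∧
      stp (DD σ) (HH σ) t ξ t' ∧ potS a n σ κ ν s' < potS a n σ κ ν s ∧
      (5 ≤ potS a n σ κ ν s → potS a n σ κ ν s ≤ potS a n σ κ ν s' + 2) := by
    rintro s t ⟨⟨ξ₁, h1⟩, ⟨ξ₂, h2⟩, h3, h4⟩ h5
    obtain ⟨ξ, s', t', h6, h7, h8, h9, h10⟩ :=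
      step_bad hn2 (edge_good hn1 hl h1).1 (edge_good hn1 hl h2).1 h3 h4 h5
    exact ⟨ξ, s', t', ⟨⟨ξ, h1.snoc h6⟩, ⟨ξ, h2.snoc h7⟩, h8, h9⟩, h7, h10⟩
  let P : Finset ℕ := ((ders l).map (potS a n σ κ ν)).toFinset
  have hP : P.card ≤ (ders l).length := (List.toFinset_card_le _).trans (by simp)
  have hbound : ∀ m s t, Bad s t → potS a n σ κ ν s = m →
      m ≤ 2 * (P.filter (· ≤ m)).card + 4 := by
    intro m
    induction m using Nat.strong_induction_on with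
    | _ m ih =>
      intro s t hst hm
      by_cases h5 : 5 ≤ m
      · obtain ⟨ξ, s', t', h1, -, h2, h3⟩ := hstep s t hst (by omega)
        have h4 := ih _ (hm ▸ h2) s' t' h1 rfl
        have h6 : m ∈ P := by
          obtain ⟨ξ, h⟩ := hst.1
          simp only [P, List.mem_toFinset, List.mem_map]
          exact ⟨s, h.mem_ders, hm⟩
        have h7 : (P.filter (· ≤ potS a n σ κ ν s')).card < (P.filter (· ≤ m)).card := by
          apply Finset.card_lt_card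
          refine ⟨fun x hx => ?_, fun h => ?_⟩
          · simp only [Finset.mem_filter] at hx ⊢
            exact ⟨hx.1, by omega⟩
          · have := h (Finset.mem_filter.2 ⟨h6, le_rfl⟩)
            simp only [Finset.mem_filter] at this
            omega
        have := h3 (by omega)
        omega
      · omega
  have hb2 : ∀ s t, Bad s t → potS a n σ κ ν s < 2 * n := by
    intro s t hst
    have h1 := hbound _ s t hst rfl
    have h2 := Finset.card_filter_le P (· ≤ potS a n σ κ ν s)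
    omega
  have hX : ∀ m s t, Bad s t → potS a n σ κ ν s = m → potS a n σ κ ν t ≠ 0 := by
    intro m
    induction m using Nat.strong_induction_on with
    | _ m ih =>
      intro s t hst hm h0
      obtain ⟨ξ, s', t', h1, h2, h3, -⟩ := hstep s t hst (by have := hst.2.2.2; omega)
      obtain ⟨ξ₂, h4⟩ := hst.2.1
      rcases step_zero hn1 (edge_good hn1 hl h4).1 h0 h2 with h5 | h5
      · exact ih _ (hm ▸ h3) s' t' h1 rfl h5
      · have := hb2 _ _ (hsym _ _ h1)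
        omega
  have hY : ∀ m s t, Bad s t → potS a n σ κ ν s = m → False := by
    intro m
    induction m using Nat.strong_induction_on with
    | _ m ih =>
      intro s t hst hm
      have h0 := hX _ t s (hsym _ _ hst) rfl
      obtain ⟨ξ, s', t', h1, -, h3, -⟩ := hstep s t hst (by omega)
      exact ih _ (hm ▸ h3) s' t' h1 rfl
  apply lam_eq_of_pot hn2 (edge_good hn1 hl hs).1 (edge_good hn1 hl ht).1 hb
  by_contra h
  exact hY _ s t ⟨⟨ξ, hs⟩, ⟨ξ', ht⟩, hb, h⟩ rfl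

end Pool.Agent.H.MP_32323c_lc
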