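import Pool.Agent.H.MP_32323c_lc.C

namespace Pool.Agent.H.MP_32323c_lc

open J

variable {A V : Type} {a : A} {n : ℕ} {σ : V → Closed A} {κ : Set J} {ν : Prop}

theorem hDH (σ : V → Closed A) : ∀ x, ¬ DD σ x → HH σ x := fun x h => by
  by_contra h'
  exact h (nul_of_not_hasL _ h')

def own (σ : V → Closed A) (F : A ⊕ V → Term A V → Set J) (s : Term A V) : Set J :=
  {j | ∃ ξ s', stp (DD σ) (HH σ) s ξ s' ∧ j ∈ F ξ s'}

def ownK (σ : V → Closed A) (F : A ⊕ V → Term A V → Set J) (u K : Term A V) : Set J :=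
  {j | ∃ ξ u', stp (DD σ) (HH σ) u ξ u' ∧ j ∈ F ξ (.seq u' K)}

def GG (σ : V → Closed A) (F : A ⊕ V → Term A V → Set J) (κ : Set J) (s : Term A V) : Set J :=
  own σ F s ∪ gd (nul (DD σ) s) κ

variable {F : A ⊕ V → Term A V → Set J}

theorem own_bis (hF : ∀ ξ s t, Bis (DD σ) (HH σ) s t → F ξ s = F ξ t) {s t : Term A V}
    (h : Bis (DD σ) (HH σ) s t) : own σ F s = own σ F t := by
  ext j
  constructor
  · rintro ⟨ξ, s', h1, h2⟩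
    obtain ⟨t', h3, h4⟩ := h.fwd h1
    exact ⟨ξ, t', h3, hF _ _ _ h4 ▸ h2⟩
  · rintro ⟨ξ, s', h1, h2⟩
    obtain ⟨t', h3, h4⟩ := h.bwd h1
    exact ⟨ξ, t', h3, hF _ _ _ h4 ▸ h2⟩

theorem GG_bis (hF : ∀ ξ s t, Bis (DD σ) (HH σ) s t → F ξ s = F ξ t) {s t : Term A V}
    (h : Bis (DD σ) (HH σ) s t) : GG σ F κ s = GG σ F κ t := by
  unfold GG
  rw [own_bis hF h, propext h.nul_iff]

theorem GG_seq (v K : Term A V) :
    GG σ F κ (.seq v K) = ownK σ F v K ∪ gd (nul (DD σ) v) (GG σ F κ K) := by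
  ext j
  simp only [GG, own, ownK, stp, nul, Set.mem_union, Set.mem_ofPred_eq, mem_gd]
  constructor
  · rintro (⟨ξ, s', (⟨p', h1, rfl⟩ | ⟨h1, h2⟩), h3⟩ | ⟨⟨h1, h2⟩, h3⟩)
    · exact Or.inl ⟨ξ, p', h1, h3⟩
    · exact Or.inr ⟨h1, Or.inl ⟨ξ, s', h2, h3⟩⟩
    · exact Or.inr ⟨h1, Or.inr ⟨h2, h3⟩⟩
  · rintro (⟨ξ, p', h1, h3⟩ | ⟨h1, ⟨ξ, s', h2, h3⟩ | ⟨h2, h3⟩⟩)
    · exact Or.inl ⟨ξ, _, Or.inl ⟨p', h1, rfl⟩, h3⟩
    · exact Or.inl ⟨ξ, s', Or.inr ⟨h1, h2⟩, h3⟩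
    · exact Or.inr ⟨⟨h1, h2⟩, h3⟩

theorem construct (hF : ∀ ξ s t, Bis (DD σ) (HH σ) s t → F ξ s = F ξ t) (u K : Term A V)
    (hu : ∀ ξ t, Edge (DD σ) (HH σ) u ξ t → Ty a n (atom σ ξ) (GG σ F κ (.seq t K))
      (nul (DD σ) (.seq t K) ∧ ν) (F ξ (.seq t K))) :
    Ty a n (u.subst σ) (GG σ F κ K) (nul (DD σ) K ∧ ν) (ownK σ F u K) := by
  have tr : ∀ {ξ} {t v K : Term A V}, Ty a n (atom σ ξ) (GG σ F κ (.seq (.seq t v) K))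
      (nul (DD σ) (.seq (.seq t v) K) ∧ ν) (F ξ (.seq (.seq t v) K)) →
      Ty a n (atom σ ξ) (GG σ F κ (.seq t (.seq v K)))
      (nul (DD σ) (.seq t (.seq v K)) ∧ ν) (F ξ (.seq t (.seq v K))) := by
    intro ξ t v K h
    have hb := bis_assoc (D := DD σ) (H := HH σ) t v K
    exact ty_congr h (GG_bis hF hb) (and_congr_left' hb.nul_iff) (hF _ _ _ hb)
  induction u generalizing K with
  | eps =>
    ext j
    simp [ownK, stp]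
  | act b =>
    refine ty_congr (hu (.inl b) .eps (.step ⟨rfl, rfl⟩)) (GG_bis hF (bis_eps_seq K))
      (by simp [nul]) ?_
    ext j
    simp [ownK, stp]
  | var x =>
    by_cases hx : hasL (σ x)
    · refine ty_congr (hu (.inr x) .eps (.step ⟨hx, rfl, rfl⟩)) (GG_bis hF (bis_eps_seq K))
        (by simp [nul]) ?_
      ext j
      simp [ownK, stp, hx]
    · refine (ty_noL _ hx _ _ _).2 ?_
      ext j
      simp [ownK, stp, hx]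
  | plus p q ihp ihq =>
    refine ⟨_, _, ihp K fun ξ t h => hu ξ t ?_, ihq K fun ξ t h => hu ξ t ?_, ?_⟩
    · exact Edge.of_stp (v := .plus p q) (fun _ _ h => Or.inl h) h
    · exact Edge.of_stp (v := .plus p q) (fun _ _ h => Or.inr h) h
    · ext j
      simp only [ownK, stp, Set.mem_union, Set.mem_ofPred_eq]
      constructor
      · rintro ⟨ξ, s', h1 | h1, h2⟩
        · exact Or.inl ⟨ξ, s', h1, h2⟩
        · exact Or.inr ⟨ξ, s', h1, h2⟩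
      · rintro (⟨ξ, s', h1, h2⟩ | ⟨ξ, s', h1, h2⟩)
        · exact ⟨ξ, s', Or.inl h1, h2⟩
        · exact ⟨ξ, s', Or.inr h1, h2⟩
  | seq p q ihp ihq =>
    refine ⟨ownK σ F p (.seq q K), ownK σ F q K, ihq K fun ξ t h => hu ξ t (h.seqR (hDH σ) p),
      ty_congr (ihp (.seq q K) fun ξ t h => tr (hu ξ _ (h.seqL q))) ?_ ?_ rfl, ?_⟩
    · rw [GG_seq, nul_sub]
    · simp only [nul, nul_sub, and_assoc]
    · ext j
      simp only [ownK, stp, Set.mem_union, Set.mem_ofPred_eq, mem_gd, nul_sub]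
      constructor
      · rintro ⟨ξ, s', ⟨p', h1, rfl⟩ | ⟨h0, h1⟩, h2⟩
        · exact Or.inl ⟨ξ, p', h1, hF _ _ _ (bis_assoc p' q K) ▸ h2⟩
        · exact Or.inr ⟨h0, ξ, s', h1, h2⟩
      · rintro (⟨ξ, s', h1, h2⟩ | ⟨h0, ξ, s', h1, h2⟩)
        · exact ⟨ξ, _, Or.inl ⟨s', h1, rfl⟩, (hF _ _ _ (bis_assoc s' q K)).symm ▸ h2⟩
        · exact ⟨ξ, s', Or.inr ⟨h0, h1⟩, h2⟩
  | star p q ihp ihq =>
    have he : ownK σ F (.star p q) K = ownK σ F p (.seq (.star p q) K) ∪ ownK σ F q K := by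
      ext j
      simp only [ownK, stp, Set.mem_union, Set.mem_ofPred_eq]
      constructor
      · rintro ⟨ξ, s', ⟨p', h1, rfl⟩ | h1, h2⟩
        · exact Or.inl ⟨ξ, p', h1, hF _ _ _ (bis_assoc p' _ K) ▸ h2⟩
        · exact Or.inr ⟨ξ, s', h1, h2⟩
      · rintro (⟨ξ, s', h1, h2⟩ | ⟨ξ, s', h1, h2⟩)
        · exact ⟨ξ, _, Or.inl ⟨s', h1, rfl⟩, (hF _ _ _ (bis_assoc s' _ K)).symm ▸ h2⟩
        · exact ⟨ξ, s', Or.inr h1, h2⟩
    refine ⟨ownK σ F p (.seq (.star p q) K), ownK σ F q K, ihq K fun ξ t h => hu ξ t ?_,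
      ty_congr (ihp (.seq (.star p q) K) fun ξ t h => tr (hu ξ _ (h.starL q))) ?_ ?_ rfl, he⟩
    · exact Edge.of_stp (v := .star p q) (fun _ _ h => Or.inr h) h
    · rw [GG_seq, he, nul_sub]
      rfl
    · simp only [nul, nul_sub, and_assoc]

theorem transfer {l r : Term A V} {Λ : Set J} (hl : Ty a n (l.subst σ) κ ν Λ)
    (hn : (ders l).length + 3 ≤ n) (hb : Bis (DD σ) (HH σ) l r) :
    Ty a n (r.subst σ) κ ν Λ := by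
  have hn1 : 1 ≤ n := by omega
  let F : A ⊕ V → Term A V → Set J := fun ξ s => {j | ∃ s₁ Λo, Edge (DD σ) (HH σ) l ξ s₁ ∧
    Bis (DD σ) (HH σ) s₁ s ∧
    Ty a n (atom σ ξ) (lam a n σ κ ν s₁) (nul (DD σ) s₁ ∧ ν) Λo ∧ j ∈ Λo}
  have hF : ∀ ξ s t, Bis (DD σ) (HH σ) s t → F ξ s = F ξ t := by
    intro ξ s t h
    ext j
    constructor
    · rintro ⟨s₁, Λo, h1, h2, h3⟩
      exact ⟨s₁, Λo, h1, h2.trans h, h3⟩
    · rintro ⟨s₁, Λo, h1, h2, h3⟩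
      exact ⟨s₁, Λo, h1, h2.trans h.symm, h3⟩
  have hF2 : ∀ ξ s₁ Λo, Edge (DD σ) (HH σ) l ξ s₁ →
      Ty a n (atom σ ξ) (lam a n σ κ ν s₁) (nul (DD σ) s₁ ∧ ν) Λo → F ξ s₁ = Λo := by
    intro ξ s₁ Λo h1 h2
    ext j
    refine ⟨?_, fun hj => ⟨s₁, Λo, h1, Bis.refl _, h2, hj⟩⟩
    rintro ⟨s₂, Λo', h3, h4, h5, h6⟩
    rw [no_bad hl hn h3 h1 h4, propext h4.nul_iff] at h5
    rwa [ty_unique hn1 h2 h5]
  have hown : ∀ s₁ Λ', (∀ ξ t, stp (DD σ) (HH σ) s₁ ξ t → Edge (DD σ) (HH σ) l ξ t) →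
      Ty a n (s₁.subst σ) κ ν Λ' → own σ F s₁ = Λ' := by
    intro s₁ Λ' h1 h2
    ext j
    constructor
    · rintro ⟨ξ, t, h3, h4⟩
      obtain ⟨-, Λo, h5, h6⟩ := fwd' hn1 h2 h3
      rw [hF2 ξ t Λo (h1 _ _ h3) h5] at h4
      exact h6 h4
    · intro hj
      obtain ⟨ξ, t, Λo, h3, h4, h5⟩ := bwd' hn1 h2 hj
      exact ⟨ξ, t, h3, (hF2 ξ t Λo (h1 _ _ h3) h4).symm ▸ h5⟩
  refine ty_congr (construct (a := a) (n := n) (κ := κ) (ν := ν) hF r .eps ?_) ?_ ?_ ?_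
  · intro ξ t ht
    obtain ⟨s₁, h1, h2⟩ := ht.bis hb.symm
    have h3 : Bis (DD σ) (HH σ) s₁ (.seq t .eps) := h2.symm.trans (bis_seq_eps t).symm
    obtain ⟨⟨⟨Λ', h4⟩, -⟩, Λo, h5⟩ := edge_good hn1 hl h1
    refine ty_congr h5 ?_ (and_congr_left' h3.nul_iff) ?_
    · rw [← GG_bis hF h3, GG, hown s₁ Λ' (fun ξ t h => h1.snoc h) h4, lam_eq hn1 h4]
    · rw [← hF _ _ _ h3, hF2 ξ s₁ Λo h1 h5]
  · ext j
    simp [GG, own, stp, nul]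
  · simp [nul]
  · rw [← hown l Λ (fun ξ t h => .step h) hl, own_bis hF hb]
    ext j
    constructor
    · rintro ⟨ξ, t, h1, h2⟩
      exact ⟨ξ, t, h1, hF _ _ _ (bis_seq_eps t) ▸ h2⟩
    · rintro ⟨ξ, t, h1, h2⟩
      exact ⟨ξ, t, h1, (hF _ _ _ (bis_seq_eps t)).symm ▸ h2⟩

end Pool.Agent.H.MP_32323c_lc
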