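import Pool.Agent.H.MP_32323c_lc.D

namespace Pool.Agent.H.MP_32323c_lc

variable {A : Type}

abbrev Bis0 (p q : Closed A) : Prop := Bis no no p q

def pw (a : A) : ℕ → Closed A
  | 0 => .eps
  | m + 1 => .seq (.act a) (pw a m)

theorem stp_pw {a : A} {m : ℕ} {Q : Closed A} {η t} :
    stp0 (.seq (pw a (m + 1)) Q) η t ↔ η = .inl a ∧ t = .seq (.seq .eps (pw a m)) Q := by
  simp only [stp0, pw, stp, nul]
  constructor
  · rintro (⟨p', (⟨p'', ⟨rfl, rfl⟩, rfl⟩ | ⟨h, -⟩), rfl⟩ | ⟨⟨h, -⟩, -⟩)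
    · exact ⟨rfl, rfl⟩
    · exact h.elim
    · exact h.elim
  · rintro ⟨rfl, rfl⟩
    exact Or.inl ⟨_, Or.inl ⟨_, ⟨rfl, rfl⟩, rfl⟩, rfl⟩

theorem bis_pw (a : A) (m : ℕ) (Q : Closed A) :
    Bis0 (.seq (.seq .eps (pw a m)) Q) (.seq (pw a m) Q) :=
  (bis_eps_seq _).seq (Bis.refl _)

theorem pw_cancel {a : A} {m d : ℕ} {P Q : Closed A}
    (h : Bis0 (.seq (pw a m) P) (.seq (pw a (d + m)) Q)) : Bis0 P (.seq (pw a d) Q) := by
  induction m with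
  | zero => exact (bis_eps_seq P).symm.trans h
  | succ m ih =>
    obtain ⟨t, h1, h2⟩ := h.fwd (stp_pw.2 ⟨rfl, rfl⟩)
    obtain ⟨-, rfl⟩ := (stp_pw (m := d + m)).1 h1
    exact ih ((bis_pw _ _ _).symm.trans (h2.trans (bis_pw _ _ _)))

def enc (a : A) (k x : ℕ) : Closed A :=
  .plus (pw a ((2 * x + 1) * (k + 1) + 1)) (pw a ((2 * x + 2) * (k + 1) + 1))

open Classical in
noncomputable def rho (a : A) (k : ℕ) (D H : ℕ → Prop) (x : ℕ) : Closed A :=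
  if H x then (if D x then .plus (enc a k x) .eps else enc a k x) else .eps

def Code (a : A) (k : ℕ) : A ⊕ ℕ → A → ℕ → Prop
  | .inl b', b, m => b = b' ∧ m = 0
  | .inr x, b, m => b = a ∧ (m = (2 * x + 1) * (k + 1) ∨ m = (2 * x + 2) * (k + 1))

variable {a : A} {k : ℕ} {D H : ℕ → Prop}

theorem nul_rho (hDH : ∀ x, ¬ D x → H x) (x : ℕ) : D x ↔ nul0 (rho a k D H x) := by
  unfold rho
  split_ifs with h1 h2
  · simp [nul0, nul, h2]
  · simp [nul0, nul, h2, enc, pw]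
  · have := hDH x
    simp only [nul0, nul]
    tauto

theorem stp_rho (x : ℕ) (η : A ⊕ Empty) (t : Closed A) : stp0 (rho a k D H x) η t ↔
    H x ∧ η = .inl a ∧ ∃ m, Code a k (.inr x) a m ∧ t = .seq .eps (pw a m) := by
  have he : stp0 (enc a k x) η t ↔
      η = .inl a ∧ ∃ m, Code a k (.inr x) a m ∧ t = .seq .eps (pw a m) := by
    simp only [stp0, enc, pw, stp, nul, Code]
    constructor
    · rintro ((⟨p', ⟨rfl, rfl⟩, rfl⟩ | ⟨h, -⟩) | (⟨p', ⟨rfl, rfl⟩, rfl⟩ | ⟨h, -⟩))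
      · exact ⟨rfl, _, ⟨trivial, Or.inl rfl⟩, rfl⟩
      · exact h.elim
      · exact ⟨rfl, _, ⟨trivial, Or.inr rfl⟩, rfl⟩
      · exact h.elim
    · rintro ⟨rfl, m, ⟨-, rfl | rfl⟩, rfl⟩
      · exact Or.inl (Or.inl ⟨_, ⟨rfl, rfl⟩, rfl⟩)
      · exact Or.inr (Or.inl ⟨_, ⟨rfl, rfl⟩, rfl⟩)
  unfold rho
  split_ifs with h1 h2
  · rw [← he]
    simp [stp0, stp, h1]
  · rw [he]
    simp [h1]
  · simp [stp0, stp, h1]

theorem sub_fwd (hDH : ∀ x, ¬ D x → H x) {s : Open A} {η t}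
    (h : stp0 (s.subst (rho a k D H)) η t) : ∃ ξ s' b m, η = .inl b ∧ stp D H s ξ s' ∧
      Code a k ξ b m ∧ Bis0 t (.seq (pw a m) (s'.subst (rho a k D H))) := by
  induction s generalizing t with
  | eps => exact h.elim
  | act b =>
    obtain ⟨rfl, rfl⟩ := h
    exact ⟨.inl b, .eps, b, 0, rfl, ⟨rfl, rfl⟩, ⟨rfl, rfl⟩, (bis_eps_seq _).symm⟩
  | var x =>
    obtain ⟨h1, rfl, m, h2, rfl⟩ := (stp_rho x η t).1 h
    exact ⟨.inr x, .eps, a, m, rfl, ⟨h1, rfl, rfl⟩, h2,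
      (bis_eps_seq _).trans (bis_seq_eps _).symm⟩
  | plus p q ihp ihq =>
    rcases h with h | h
    · obtain ⟨ξ, s', b, m, h1, h2, h3⟩ := ihp h
      exact ⟨ξ, s', b, m, h1, Or.inl h2, h3⟩
    · obtain ⟨ξ, s', b, m, h1, h2, h3⟩ := ihq h
      exact ⟨ξ, s', b, m, h1, Or.inr h2, h3⟩
  | seq p q ihp ihq =>
    rcases h with ⟨p', h, rfl⟩ | ⟨h0, h⟩
    · obtain ⟨ξ, s', b, m, h1, h2, h3, h4⟩ := ihp h
      exact ⟨ξ, _, b, m, h1, Or.inl ⟨s', h2, rfl⟩, h3,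
        (h4.seq (Bis.refl _)).trans (bis_assoc _ _ _)⟩
    · obtain ⟨ξ, s', b, m, h1, h2, h3⟩ := ihq h
      exact ⟨ξ, s', b, m, h1, Or.inr ⟨(nul_subst _ (nul_rho hDH) p).1 h0, h2⟩, h3⟩
  | star p q ihp ihq =>
    rcases h with ⟨p', h, rfl⟩ | h
    · obtain ⟨ξ, s', b, m, h1, h2, h3, h4⟩ := ihp h
      exact ⟨ξ, _, b, m, h1, Or.inl ⟨s', h2, rfl⟩, h3,
        (h4.seq (Bis.refl _)).trans (bis_assoc _ _ _)⟩
    · obtain ⟨ξ, s', b, m, h1, h2, h3⟩ := ihq h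
      exact ⟨ξ, s', b, m, h1, Or.inr h2, h3⟩

theorem sub_bwd (hDH : ∀ x, ¬ D x → H x) {s : Open A} {ξ s'} (h : stp D H s ξ s') {b m}
    (hc : Code a k ξ b m) : ∃ t, stp0 (s.subst (rho a k D H)) (.inl b) t ∧
      Bis0 t (.seq (pw a m) (s'.subst (rho a k D H))) := by
  induction s generalizing s' with
  | eps => exact h.elim
  | act b =>
    obtain ⟨rfl, rfl⟩ := h
    obtain ⟨rfl, rfl⟩ := hc
    exact ⟨.eps, ⟨rfl, rfl⟩, (bis_eps_seq _).symm⟩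
  | var x =>
    obtain ⟨h1, rfl, rfl⟩ := h
    obtain rfl : b = a := hc.1
    exact ⟨_, (stp_rho x _ _).2 ⟨h1, rfl, m, hc, rfl⟩,
      (bis_eps_seq _).trans (bis_seq_eps _).symm⟩
  | plus p q ihp ihq =>
    rcases h with h | h
    · obtain ⟨t, h1, h2⟩ := ihp h
      exact ⟨t, Or.inl h1, h2⟩
    · obtain ⟨t, h1, h2⟩ := ihq h
      exact ⟨t, Or.inr h1, h2⟩
  | seq p q ihp ihq =>
    rcases h with ⟨p', h, rfl⟩ | ⟨h0, h⟩
    · obtain ⟨t, h1, h2⟩ := ihp h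
      exact ⟨_, Or.inl ⟨t, h1, rfl⟩, (h2.seq (Bis.refl _)).trans (bis_assoc _ _ _)⟩
    · obtain ⟨t, h1, h2⟩ := ihq h
      exact ⟨t, Or.inr ⟨(nul_subst _ (nul_rho hDH) p).2 h0, h1⟩, h2⟩
  | star p q ihp ihq =>
    rcases h with ⟨p', h, rfl⟩ | h
    · obtain ⟨t, h1, h2⟩ := ihp h
      exact ⟨_, Or.inl ⟨t, h1, rfl⟩, (h2.seq (Bis.refl _)).trans (bis_assoc _ _ _)⟩
    · obtain ⟨t, h1, h2⟩ := ihq h
      exact ⟨t, Or.inr h1, h2⟩

theorem det_le (hDH : ∀ x, ¬ D x → H x) (s : Open A) (hs : nrm s ≤ k) {j : ℕ} {Q : Closed A}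
    (h : Bis0 (s.subst (rho a k D H)) (.seq (pw a j) Q)) : j ≤ nrm s := by
  induction hm : nrm s using Nat.strong_induction_on generalizing s j Q with
  | _ m ih =>
    cases j with
    | zero => omega
    | succ j =>
      have hn : ¬ nul D s := fun h' => (h.nul_iff.1 ((nul_subst _ (nul_rho hDH) s).2 h')).1.1
      obtain ⟨ξ, s', h1, h2⟩ := exists_stp_lt hDH s hn
      have key : ∀ b m, Code a k ξ b m →
          Bis0 (.seq (pw a m) (s'.subst (rho a k D H))) (.seq (pw a j) Q) := by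
        intro b m hc
        obtain ⟨t, h3, h4⟩ := sub_bwd hDH h1 hc
        obtain ⟨t', h5, h6⟩ := h.fwd h3
        obtain ⟨-, rfl⟩ := stp_pw.1 h5
        exact h4.symm.trans (h6.trans (bis_pw _ _ _))
      rcases ξ with b | x
      · have := ih _ (hm ▸ h2) s' (by omega) ((bis_eps_seq _).symm.trans (key b 0 ⟨rfl, rfl⟩)) rfl
        omega
      · have h3 := (key a _ ⟨rfl, Or.inl rfl⟩).trans (key a _ ⟨rfl, Or.inr rfl⟩).symm
        rw [show (2 * x + 2) * (k + 1) = (k + 1) + (2 * x + 1) * (k + 1) by ring] at h3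
        have := ih _ (hm ▸ h2) s' (by omega) (pw_cancel h3) rfl
        omega

theorem code_mul {ξ b m} (h : Code a k ξ b m) : ∃ c, m = c * (k + 1) := by
  rcases ξ with b' | x
  · exact ⟨0, by simp [h.2]⟩
  · rcases h.2 with h | h <;> exact ⟨_, h⟩

theorem pw_match (hDH : ∀ x, ¬ D x → H x) {s t : Open A} (hs : nrm s ≤ k) (ht : nrm t ≤ k)
    {c c' : ℕ} (h : Bis0 (.seq (pw a (c * (k + 1))) (s.subst (rho a k D H)))
      (.seq (pw a (c' * (k + 1))) (t.subst (rho a k D H)))) :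
    c = c' ∧ Bis0 (s.subst (rho a k D H)) (t.subst (rho a k D H)) := by
  have key : ∀ {s t : Open A}, nrm s ≤ k → ∀ {c c' : ℕ}, c ≤ c' →
      Bis0 (.seq (pw a (c * (k + 1))) (s.subst (rho a k D H)))
        (.seq (pw a (c' * (k + 1))) (t.subst (rho a k D H))) → c = c' := by
    intro s t hs c c' hc h
    obtain ⟨d, rfl⟩ := Nat.exists_eq_add_of_le hc
    rw [show (c + d) * (k + 1) = d * (k + 1) + c * (k + 1) by ring] at h
    have := det_le hDH s hs (pw_cancel h)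
    cases d with
    | zero => rfl
    | succ d => nlinarith
  have hc : c = c' := by
    rcases le_total c c' with hc | hc
    · exact key hs hc h
    · exact (key ht hc h.symm).symm
  subst hc
  refine ⟨rfl, (pw_cancel (a := a) (m := c * (k + 1)) (d := 0) ?_).trans (bis_eps_seq _)⟩
  rwa [zero_add]

theorem generic (a : A) (hDH : ∀ x, ¬ D x → H x) {l r : Open A}
    (h : ∀ σ : ℕ → Closed A, Bis0 (l.subst σ) (r.subst σ)) : Bis D H l r := by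
  obtain ⟨k, hk⟩ : ∃ k, ∀ s ∈ ders l ++ ders r, nrm s ≤ k := by
    refine ⟨((ders l ++ ders r).map nrm).sum, fun s hs => ?_⟩
    exact List.single_le_sum (by simp) _ (List.mem_map_of_mem hs)
  let S : Open A → Prop := fun s => ∀ w ∈ ders s, nrm w ≤ k
  have half : ∀ s t, S s → S t → Bis0 (s.subst (rho a k D H)) (t.subst (rho a k D H)) →
      ∀ ξ s', stp D H s ξ s' → ∃ t', stp D H t ξ t' ∧ S s' ∧ S t' ∧
        Bis0 (s'.subst (rho a k D H)) (t'.subst (rho a k D H)) := by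
    intro s t hs ht hb ξ s' h1
    obtain ⟨b, c, hc, hc'⟩ : ∃ b c, Code a k ξ b (c * (k + 1)) ∧
        ∀ ξ', Code a k ξ' b (c * (k + 1)) → ξ' = ξ := by
      rcases ξ with b | x
      · refine ⟨b, 0, ⟨rfl, by simp⟩, ?_⟩
        rintro (b' | y) h
        · rw [h.1]
        · rcases h.2 with h | h <;> have := Nat.eq_of_mul_eq_mul_right (Nat.succ_pos k) h <;> omega
      · refine ⟨a, 2 * x + 1, ⟨rfl, Or.inl rfl⟩, ?_⟩
        rintro (b' | y) h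
        · have := h.2
          simp at this
        · congr 1
          rcases h.2 with h | h <;> have := Nat.eq_of_mul_eq_mul_right (Nat.succ_pos k) h <;> omega
    obtain ⟨u, h2, h3⟩ := sub_bwd hDH h1 hc
    obtain ⟨u', h4, h5⟩ := hb.fwd h2
    obtain ⟨ξ', t', b', m, h6, h7, h8, h9⟩ := sub_fwd hDH h4
    obtain rfl : b = b' := by simpa using h6
    obtain ⟨c', rfl⟩ := code_mul h8
    obtain ⟨rfl, h10⟩ := pw_match hDH (hs _ (mem_ders_of_stp h1).1) (ht _ (mem_ders_of_stp h7).1)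
      (h3.symm.trans (h5.trans h9))
    obtain rfl := hc' _ h8
    exact ⟨t', h7, fun w hw => hs _ ((mem_ders_of_stp h1).2 w hw),
      fun w hw => ht _ ((mem_ders_of_stp h7).2 w hw), h10⟩
  refine ⟨fun s t => S s ∧ S t ∧ Bis0 (s.subst (rho a k D H)) (t.subst (rho a k D H)), ?_,
    fun w hw => hk w (by simp [hw]), fun w hw => hk w (by simp [hw]), h _⟩
  rintro s t ⟨hs, ht, hb⟩
  refine ⟨?_, half s t hs ht hb, fun ξ t' h1 => ?_⟩
  · rw [← nul_subst _ (nul_rho (a := a) (k := k) hDH), ← nul_subst _ (nul_rho (a := a) (k := k) hDH)]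
    exact hb.nul_iff
  · obtain ⟨s', h2, h3, h4, h5⟩ := half t s ht hs hb.symm ξ t' h1
    exact ⟨s', h2, h4, h3, h5.symm⟩

open J

variable {n : ℕ}

theorem invariant {E : Set (Open A × Open A)} (hE : Sound E)
    (hn : ∀ e ∈ E, (ders e.1).length + 3 ≤ n ∧ (ders e.2).length + 3 ≤ n) {p q : Open A}
    (h : Derivable E p q) (σ : ℕ → Closed A) : (nul0 (p.subst σ) ↔ nul0 (q.subst σ)) ∧
      ∀ κ ν Λ, Ty a n (p.subst σ) κ ν Λ ↔ Ty a n (q.subst σ) κ ν Λ := by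
  induction h generalizing σ with
  | @ax p q h =>
    have h1 : ∀ σ : ℕ → Closed A, Bis0 (p.subst σ) (q.subst σ) := fun σ =>
      (bisimilar_iff _ _).1 (hE _ h σ)
    have h2 : Bis (DD σ) (HH σ) p q := generic a (hDH σ) h1
    exact ⟨(h1 σ).nul_iff, fun κ ν Λ =>
      ⟨fun h' => transfer h' (hn _ h).1 h2, fun h' => transfer h' (hn _ h).2 h2.symm⟩⟩
  | refl p => exact ⟨Iff.rfl, fun _ _ _ => Iff.rfl⟩
  | symm _ ih => exact ⟨(ih σ).1.symm, fun κ ν Λ => ((ih σ).2 κ ν Λ).symm⟩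
  | trans _ _ ih ih' =>
    exact ⟨(ih σ).1.trans (ih' σ).1, fun κ ν Λ => ((ih σ).2 κ ν Λ).trans ((ih' σ).2 κ ν Λ)⟩
  | subst τ _ ih =>
    rw [subst_subst, subst_subst]
    exact ih _
  | plus _ _ ih ih' =>
    refine ⟨or_congr (ih σ).1 (ih' σ).1, fun κ ν Λ => ?_⟩
    simp only [Term.subst, Ty, (ih σ).2, (ih' σ).2]
  | seq _ _ ih ih' =>
    refine ⟨and_congr (ih σ).1 (ih' σ).1, fun κ ν Λ => ?_⟩
    simp only [Term.subst, Ty, (ih σ).2, (ih' σ).2, (ih σ).1, (ih' σ).1]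
  | star _ _ ih ih' =>
    refine ⟨(ih' σ).1, fun κ ν Λ => ?_⟩
    simp only [Term.subst, Ty, (ih σ).2, (ih' σ).2, (ih' σ).1]

/-- The chain `w 0 = ε`, `w 1 = a a + ε`, `w (i + 2) = a (w (i + 1)) + ε`. -/
def chain (a : A) : ℕ → Closed A
  | 0 => .eps
  | 1 => .plus (.seq (.act a) (.act a)) .eps
  | i + 2 => .plus (.seq (.act a) (chain a (i + 1))) .eps

def lhs (a : A) (n : ℕ) : Closed A :=
  .star (.plus (.act a) (.seq (.act a) (.seq (.act a) (chain a n)))) .eps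

def rhs (a : A) : Closed A := .star (.plus (.act a) (.seq (.act a) (.act a))) .eps

theorem nul_chain (a : A) : ∀ i, nul0 (chain a i)
  | 0 => trivial
  | 1 => Or.inr trivial
  | _ + 2 => Or.inr trivial

theorem ty_chain (a : A) (n : ℕ) : ∀ i, Ty a n (chain a (i + 1)) (lab n (N 0)) True {ch i}
  | 0 => by
    refine ⟨{M 0}, ∅, ⟨{M 0}, {N 0}, ⟨rfl, N 0, rfl, rfl, Iff.rfl⟩, ⟨rfl, M 0, rfl, ?_, ?_⟩, ?_⟩,
      rfl, by simp [ch]⟩
    · ext j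
      simp [nul0, nul, lab]
    · simp [nul0, nul, J.null]
    · ext j
      simp [nul0, nul]
  | i + 1 => by
    refine ⟨{N (i + 1)}, ∅, ⟨{N (i + 1)}, {ch i}, ty_chain a n i,
      ⟨rfl, N (i + 1), rfl, ?_, ?_⟩, ?_⟩, rfl, by simp [ch]⟩
    · ext j
      simp [nul_chain, lab]
      tauto
    · simp [nul_chain, J.null]
    · ext j
      simp [nul0, nul]

theorem ty_lhs (a : A) (n : ℕ) : Ty a (n + 1) (lhs a (n + 1)) ∅ True {N 0, M (n + 1)} := by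
  refine ⟨{N 0, M (n + 1)}, ∅, rfl, ty_congr (κ := lab (n + 1) (N 0)) (ν := True)
    ⟨{N 0}, {M (n + 1)}, ⟨rfl, N 0, rfl, rfl, Iff.rfl⟩, ⟨{M (n + 1)}, {N (n + 1)},
      ⟨{N (n + 1)}, {ch n}, ty_chain a _ n, ⟨rfl, N (n + 1), rfl, ?_, ?_⟩, ?_⟩,
      ⟨rfl, M (n + 1), rfl, ?_, ?_⟩, ?_⟩, rfl⟩ ?_ ?_ rfl, by simp⟩
  · ext j
    simp [nul_chain, lab]
    tauto
  · simp [nul_chain, J.null]
  · ext j
    simp [nul0, nul]
  · ext j
    simp [nul0, nul, lab]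
  · simp [nul0, nul, J.null]
  · ext j
    simp [nul0, nul]
  · ext j
    simp [lab]
  · simp [nul0, nul]

theorem not_ty_rhs (a : A) (n : ℕ) (Λ : Set J) : ¬ Ty a (n + 1) (rhs a) ∅ True Λ := by
  rintro ⟨Λ₁, _, rfl, ⟨_, Λ₂, ⟨-, j, rfl, h1, h2⟩, ⟨_, _, ⟨-, j', rfl, h3, h4⟩,
    ⟨-, j'', rfl, h5, h6⟩, rfl⟩, rfl⟩, -⟩
  simp only [nul0, nul, false_and, true_and] at *
  cases j' with
  | M m => exact h4.1 trivial
  | N m =>
    cases j'' with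
    | N m' => exact h6.2 trivial
    | M m' =>
      have h7 : N m ∈ lab (n + 1) (M m') := h5 ▸ Or.inl rfl
      obtain rfl : m = m' := by simpa [lab] using h7
      have h8 : M (n + 1) ∈ lab (n + 1) (N m) := by cases m <;> simp [lab]
      have h9 : N 0 ∈ lab (n + 1) (N m) := by cases m <;> simp [lab]
      rw [← h3] at h8 h9
      simp at h8 h9
      subst h9
      obtain rfl : n + 1 = m := by simpa using h8
      have h10 : ch n ∈ lab (n + 1) (N (n + 1)) := by simp [lab]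
      rw [← h3] at h10
      cases n <;> simp [ch] at h10

theorem bis_lhs_rhs (a : A) (n : ℕ) : Bis0 (lhs a n) (rhs a) := by
  let X : Closed A → Prop := fun s => Bis0 s (lhs a n) ∨ ∃ i, Bis0 s (.seq (chain a i) (lhs a n))
  let Y : Closed A → Prop := fun s => ∃ i, Bis0 s (.seq (.act a) (.seq (chain a i) (lhs a n)))
  have hX : ∀ i η t, stp0 (.seq (chain a i) (lhs a n)) η t → η = .inl a ∧ (X t ∨ Y t) := by
    rintro i η t (⟨p', h, rfl⟩ | ⟨-, h⟩)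
    · rcases i with _ | _ | i
      · exact h.elim
      · rcases h with (⟨_, ⟨h1, rfl⟩, rfl⟩ | ⟨h, -⟩) | h
        · exact ⟨h1, Or.inr ⟨0, ((bis_eps_seq _).seq (Bis.refl _)).trans
            ((Bis.refl _).seq (bis_eps_seq _).symm)⟩⟩
        · exact h.elim
        · exact h.elim
      · rcases h with (⟨_, ⟨h1, rfl⟩, rfl⟩ | ⟨h, -⟩) | h
        · exact ⟨h1, Or.inl (Or.inr ⟨i + 1, (bis_eps_seq _).seq (Bis.refl _)⟩)⟩
        · exact h.elim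
        · exact h.elim
    · rcases h with ⟨p', (⟨rfl, rfl⟩ | ⟨p'', ⟨rfl, rfl⟩, rfl⟩ | ⟨h, -⟩), rfl⟩ | h
      · exact ⟨rfl, Or.inl (Or.inl (bis_eps_seq _))⟩
      · exact ⟨rfl, Or.inr ⟨n, ((bis_eps_seq _).seq (Bis.refl _)).trans (bis_assoc _ _ _)⟩⟩
      · exact h.elim
      · exact h.elim
  have hX' : ∀ s, X s → ∃ i, Bis0 s (.seq (chain a i) (lhs a n)) := by
    rintro s (h | h)
    · exact ⟨0, h.trans (bis_eps_seq _).symm⟩
    · exact h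
  refine ⟨fun s t => (X s ∧ Bis0 t (rhs a)) ∨ (Y s ∧ Bis0 t (.seq (.act a) (rhs a))), ?_,
    Or.inl ⟨Or.inl (Bis.refl _), Bis.refl _⟩⟩
  have hXb : ∀ {s s'}, Bis0 s s' → X s' → X s := fun h h' => by
    obtain ⟨i, h'⟩ := hX' _ h'
    exact Or.inr ⟨i, h.trans h'⟩
  have hYb : ∀ {s s'}, Bis0 s s' → Y s' → Y s := fun h ⟨i, h'⟩ => ⟨i, h.trans h'⟩
  rintro s t (⟨h1, h2⟩ | ⟨⟨i, h1⟩, h2⟩)
  · obtain ⟨i, h1⟩ := hX' s h1
    refine ⟨?_, fun η s' hs => ?_, fun η t' ht => ?_⟩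
    · rw [h1.nul_iff, h2.nul_iff]
      exact ⟨fun _ => trivial, fun _ => ⟨nul_chain a i, trivial⟩⟩
    · obtain ⟨u, h3, h4⟩ := h1.fwd hs
      obtain ⟨rfl, h5 | h5⟩ := hX i η u h3
      · obtain ⟨t', h6, h7⟩ := h2.bwd (ξ := .inl a) (Or.inl ⟨_, Or.inl ⟨rfl, rfl⟩, rfl⟩)
        exact ⟨t', h6, Or.inl ⟨hXb h4 h5, h7.trans (bis_eps_seq _)⟩⟩
      · obtain ⟨t', h6, h7⟩ := h2.bwd (ξ := .inl a)
          (Or.inl ⟨_, Or.inr (Or.inl ⟨_, ⟨rfl, rfl⟩, rfl⟩), rfl⟩)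
        exact ⟨t', h6, Or.inr ⟨hYb h4 h5, h7.trans ((bis_eps_seq _).seq (Bis.refl _))⟩⟩
    · obtain ⟨u, h3, h4⟩ := h2.fwd ht
      rcases h3 with ⟨p', (⟨rfl, rfl⟩ | ⟨p'', ⟨rfl, rfl⟩, rfl⟩ | ⟨h, -⟩), rfl⟩ | h
      · obtain ⟨s', h6, h7⟩ := h1.bwd (ξ := .inl a)
          (Or.inr ⟨nul_chain a i, Or.inl ⟨_, Or.inl ⟨rfl, rfl⟩, rfl⟩⟩)
        exact ⟨s', h6, Or.inl ⟨Or.inl (h7.trans (bis_eps_seq _)), h4.trans (bis_eps_seq _)⟩⟩
      · obtain ⟨s', h6, h7⟩ := h1.bwd (ξ := .inl a)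
          (Or.inr ⟨nul_chain a i, Or.inl ⟨_, Or.inr (Or.inl ⟨_, ⟨rfl, rfl⟩, rfl⟩), rfl⟩⟩)
        exact ⟨s', h6, Or.inr ⟨⟨n, h7.trans (((bis_eps_seq _).seq (Bis.refl _)).trans
          (bis_assoc _ _ _))⟩, h4.trans ((bis_eps_seq _).seq (Bis.refl _))⟩⟩
      · exact h.elim
      · exact h.elim
  · refine ⟨?_, fun η s' hs => ?_, fun η t' ht => ?_⟩
    · rw [h1.nul_iff, h2.nul_iff]
      simp [nul]
    · obtain ⟨u, (⟨_, ⟨rfl, rfl⟩, rfl⟩ | ⟨h, -⟩), h4⟩ := h1.fwd hs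
      · obtain ⟨t', h6, h7⟩ := h2.bwd (ξ := .inl a) (Or.inl ⟨_, ⟨rfl, rfl⟩, rfl⟩)
        exact ⟨t', h6, Or.inl ⟨Or.inr ⟨i, h4.trans (bis_eps_seq _)⟩, h7.trans (bis_eps_seq _)⟩⟩
      · exact h.elim
    · obtain ⟨u, (⟨_, ⟨rfl, rfl⟩, rfl⟩ | ⟨h, -⟩), h4⟩ := h2.fwd ht
      · obtain ⟨s', h6, h7⟩ := h1.bwd (ξ := .inl a) (Or.inl ⟨_, ⟨rfl, rfl⟩, rfl⟩)
        exact ⟨s', h6, Or.inl ⟨Or.inr ⟨i, h7.trans (bis_eps_seq _)⟩, h4.trans (bis_eps_seq _)⟩⟩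
      · exact h.elim

theorem toOpen_subst (p : Closed A) (σ : ℕ → Closed A) : Term.subst σ p.toOpen = p := by
  rw [Closed.toOpen, subst_subst, subst_closed]

theorem main (a : A) (E : Set (Open A × Open A)) (hS : Sound E) (hC : GroundComplete E) :
    E.Infinite := by
  intro hE
  obtain ⟨n, hn⟩ := (hE.image fun e => (ders e.1).length + (ders e.2).length + 3).bddAbove
  have h := (invariant (a := a) (n := n + 1) hS (fun e he => by
    have := hn (Set.mem_image_of_mem _ he)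
    omega) (hC _ _ ((bisimilar_iff _ _).2 (bis_lhs_rhs a (n + 1)))) (fun _ => .eps)).2
  simp only [toOpen_subst] at h
  exact not_ty_rhs a n _ ((h _ _ _).1 (ty_lhs a n))

end Pool.Agent.H.MP_32323c_lc
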